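import Pool.Agent.Lib.MP_1c8600_m.Basic

/-!
# MP_1c8600_lc, model side, row M3: families of Borel sets with natural numbers as parameters
-/

set_option autoImplicit false
set_option linter.unusedVariables false
set_option linter.style.haveILetI false

open Set

namespace Pool.LCM

open Pool.MP_3ade05_lc Pool.PC Pool.MP_1c8600_lc
open Pool.UT hiding pw

variable {V : Set ZFSet.{0}} {E : ZFSet.{0}} {A : ℕ → ZFSet.{0}} {m n : ℕ}

/-- `P v z` is definable in the model, and for all natural numbers `v` (as elements of `ω`) the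
set `{z ∈ E^(m+1) : P v z}` is a Borel set. -/
class Bo (V : Set ZFSet.{0}) (E : ZFSet.{0}) (A : ℕ → ZFSet.{0}) (m : ℕ) {n : ℕ}
    (P : (Fin n → ZFSet.{0}) → ZFSet.{0} → Prop) : Prop where
  df : Df V (fun v : Fin (n + 1) → ZFSet.{0} => P (fun i => v i.succ) (v 0))
  bor : ∀ v : Fin n → ZFSet.{0}, (∀ i, v i ∈ ZFSet.omega) → BorelV V E A m (ZFSet.sep (P v) (Ep E m))

/-- Row M3. -/
lemma borel_union2 (hE : E ∈ V) [hT : TZ V] (hA : SeqIn V A) (hA' : ∀ n, A n ⊆ E)
    {S T : ZFSet.{0}} (hS : BorelV V E A m S) (hT' : BorelV V E A m T) :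
    BorelV V E A m (S ∪ T) := by
  have h1 : SeqIn V (fun n => if n = 0 then S else T) := by
    refine seq_const (fun n => ?_) 1 (fun n hn => ?_)
    · by_cases h : n = 0
      · rw [if_pos h]
        exact borel_memV hE hA hS
      · rw [if_neg h]
        exact borel_memV hE hA hT'
    · rw [if_neg (by omega), if_neg (by omega)]
  have h2 := BorelV.union (V := V) (E := E) (A := A) (m := m) (fun n => if n = 0 then S else T) h1
    (fun n => by
      by_cases h : n = 0
      · rw [if_pos h]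
        exact hS
      · rw [if_neg h]
        exact hT')
  have h3 : uni (fun n => if n = 0 then S else T) = S ∪ T := by
    ext x
    rw [mem_uni, ZFSet.mem_union]
    constructor
    · rintro ⟨n, hn⟩
      by_cases h : n = 0
      · rw [if_pos h] at hn
        exact Or.inl hn
      · rw [if_neg h] at hn
        exact Or.inr hn
    · rintro (h | h)
      · exact ⟨0, by rwa [if_pos rfl]⟩
      · exact ⟨1, by rwa [if_neg (by omega)]⟩
  rwa [h3] at h2

/-- Row M3. -/
lemma borel_top (hE : E ∈ V) [hT : TZ V] (hA : SeqIn V A) (hA' : ∀ n, A n ⊆ E) :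
    BorelV V E A m (Ep E m) := by
  have h1 : BorelV V E A m (rectZ A m (fun _ => 0)) := BorelV.rect _
  have h2 := borel_union2 hE hA hA' h1 (BorelV.compl _ h1)
  have h3 : rectZ A m (fun _ => 0) ∪ (Pool.MP_1c8600_lc.pw E m \ rectZ A m (fun _ => 0)) =
      Ep E m := by
    ext x
    rw [ZFSet.mem_union, ZFSet.mem_sdiff]
    constructor
    · rintro (h | h)
      · exact rectZ_sub hA' m _ h
      · exact h.1
    · intro h
      by_cases h' : x ∈ rectZ A m (fun _ => 0)
      · exact Or.inl h'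
      · exact Or.inr ⟨h, h'⟩
  rwa [h3] at h2

/-- Row M3. -/
lemma borel_bot (hE : E ∈ V) [hT : TZ V] (hA : SeqIn V A) (hA' : ∀ n, A n ⊆ E) :
    BorelV V E A m (∅ : ZFSet.{0}) := by
  have h1 := BorelV.compl _ (borel_top (V := V) (m := m) hE hA hA')
  have h2 : Pool.MP_1c8600_lc.pw E m \ Ep E m = ∅ := by
    ext x
    rw [ZFSet.mem_sdiff]
    simp
  rwa [h2] at h1

/-- Row M3. -/
lemma Bo.not [hT : TZ V] {P : (Fin n → ZFSet.{0}) → ZFSet.{0} → Prop} (hP : Bo V E A m P) :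
    Bo V E A m (fun v z => ¬ P v z) where
  df := Df.instNot (hP := hP.df)
  bor := fun v hv => by
    have h1 := BorelV.compl _ (hP.bor v hv)
    have h2 : Pool.MP_1c8600_lc.pw E m \ ZFSet.sep (P v) (Ep E m) =
        ZFSet.sep (fun z => ¬ P v z) (Ep E m) := by
      ext x
      rw [ZFSet.mem_sdiff, ZFSet.mem_sep, ZFSet.mem_sep]
      tauto
    rwa [h2] at h1

/-- Row M3. -/
lemma Bo.or (hE : E ∈ V) [hT : TZ V] (hA : SeqIn V A) (hA' : ∀ n, A n ⊆ E)
    {P Q : (Fin n → ZFSet.{0}) → ZFSet.{0} → Prop} (hP : Bo V E A m P) (hQ : Bo V E A m Q) :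
    Bo V E A m (fun v z => P v z ∨ Q v z) where
  df := Df.instOr (hP := hP.df) (hQ := hQ.df)
  bor := fun v hv => by
    have h1 := borel_union2 hE hA hA' (hP.bor v hv) (hQ.bor v hv)
    have h2 : ZFSet.sep (P v) (Ep E m) ∪ ZFSet.sep (Q v) (Ep E m) =
        ZFSet.sep (fun z => P v z ∨ Q v z) (Ep E m) := by
      ext x
      rw [ZFSet.mem_union, ZFSet.mem_sep, ZFSet.mem_sep, ZFSet.mem_sep]
      tauto
    rwa [h2] at h1

/-- Row M3. -/
lemma Bo.congr {P Q : (Fin n → ZFSet.{0}) → ZFSet.{0} → Prop} (hP : Bo V E A m P)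
    (h : ∀ v z, P v z ↔ Q v z) : Bo V E A m Q := by
  have : P = Q := by
    funext v z
    exact propext (h v z)
  rwa [← this]

/-- Row M3. -/
lemma Bo.imp (hE : E ∈ V) [hT : TZ V] (hA : SeqIn V A) (hA' : ∀ n, A n ⊆ E)
    {P Q : (Fin n → ZFSet.{0}) → ZFSet.{0} → Prop} (hP : Bo V E A m P) (hQ : Bo V E A m Q) :
    Bo V E A m (fun v z => P v z → Q v z) :=
  (Bo.or hE hA hA' hP.not hQ).congr fun v z => by
    by_cases h : P v z <;> simp [h]

/-- Row M3. -/
lemma Bo.and (hE : E ∈ V) [hT : TZ V] (hA : SeqIn V A) (hA' : ∀ n, A n ⊆ E)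
    {P Q : (Fin n → ZFSet.{0}) → ZFSet.{0} → Prop} (hP : Bo V E A m P) (hQ : Bo V E A m Q) :
    Bo V E A m (fun v z => P v z ∧ Q v z) :=
  (Bo.or hE hA hA' hP.not hQ.not).not.congr fun v z => by
    by_cases h : P v z <;> simp [h]

/-- Row M3: union over a natural number. The sequence of the sets is definable (`seq_of_dft`,
`DfT.instSep`). -/
lemma Bo.ex (hE : E ∈ V) [hT : TZ V] {P : ℕ → (Fin n → ZFSet.{0}) → ZFSet.{0} → Prop}
    (hP : Bo V E A m (fun (v : Fin (n + 1) → ZFSet.{0}) z => P (nat (v 0)) (fun i => v i.succ) z)) :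
    Bo V E A m (fun v z => ∃ k : ℕ, P k v z) where
  df := by
    haveI h1 : Df V (fun v : Fin (n + 1 + 1) → ZFSet.{0} =>
        P (nat (v 0)) (fun i => v i.succ.succ) (v 1)) :=
      hP.df.ren (Fin.cons 1 (Fin.cons 0 (fun i => i.succ.succ)))
    exact Df.instExN (V := V) (P := fun k (v : Fin (n + 1) → ZFSet.{0}) =>
      P k (fun i => v i.succ) (v 0)) (hP := h1)
  bor := fun v hv => by
    have hvV : ∀ i, v i ∈ V := fun i => hT.trans _ omega_memV _ (hv i)
    have h1 : Df V (fun u : Fin 2 → ZFSet.{0} => P (nat (u 1)) v (u 0)) := hP.df.fix2 hvV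
    haveI : InE V (Ep E m) := ⟨Ep_memV hE m⟩
    haveI h2 : DfT V (fun u : Fin 1 → ZFSet.{0} => ZFSet.sep (fun z => P (nat (u 0)) v z)
        (Ep E m)) :=
      DfT.instSep (P := fun z (u : Fin 1 → ZFSet.{0}) => P (nat (u 0)) v z)
        (t := fun _ => Ep E m) (hP := h1)
    have h3 := seq_of_dft (V := V) (fun x => ZFSet.sep (fun z => P (nat x) v z) (Ep E m))
    have h4 := BorelV.union (V := V) (E := E) (A := A) (m := m) _ h3 (fun k => by
      have h5 := hP.bor (Fin.cons (num k) v) (fun i => by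
        refine Fin.cases ?_ (fun j => ?_) i
        · exact num_mem_omega k
        · exact hv j)
      exact h5)
    have h5 : uni (fun k => ZFSet.sep (fun z => P (nat (num k)) v z) (Ep E m)) =
        ZFSet.sep (fun z => ∃ k : ℕ, P k v z) (Ep E m) := by
      ext z
      rw [mem_uni, ZFSet.mem_sep]
      simp only [ZFSet.mem_sep, nat_num]
      constructor
      · rintro ⟨k, h6, h7⟩
        exact ⟨h6, k, h7⟩
      · rintro ⟨h6, k, h7⟩
        exact ⟨k, h6, h7⟩
    rwa [h5] at h4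

/-- Row M3. -/
lemma Bo.all (hE : E ∈ V) [hT : TZ V] {P : ℕ → (Fin n → ZFSet.{0}) → ZFSet.{0} → Prop}
    (hP : Bo V E A m (fun (v : Fin (n + 1) → ZFSet.{0}) z => P (nat (v 0)) (fun i => v i.succ) z)) :
    Bo V E A m (fun v z => ∀ k : ℕ, P k v z) :=
  (Bo.ex hE (P := fun k v z => ¬ P k v z) hP.not).not.congr fun v z => by
    push Not
    exact Iff.rfl

/-- Row M3: conditions on the parameters only. -/
lemma Bo.par (hE : E ∈ V) [hT : TZ V] (hA : SeqIn V A) (hA' : ∀ n, A n ⊆ E) {P : (Fin n → ZFSet.{0}) → Prop}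
    (hP : Df V P) : Bo V E A m (fun v _ => P v) where
  df := hP.ren Fin.succ
  bor := fun v _ => by
    by_cases h : P v
    · have h1 : ZFSet.sep (fun _ => P v) (Ep E m) = Ep E m := by
        ext x
        rw [ZFSet.mem_sep]
        simp [h]
      rw [h1]
      exact borel_top hE hA hA'
    · have h1 : ZFSet.sep (fun _ => P v) (Ep E m) = ∅ := by
        ext x
        rw [ZFSet.mem_sep]
        simp [h]
      rw [h1]
      exact borel_bot hE hA hA'

/-- Row M3: substitution of a term in a family with one parameter. -/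
lemma Bo.subst [hT : TZ V] {P : ℕ → ZFSet.{0} → Prop}
    (hP : Bo V E A m (fun (v : Fin 1 → ZFSet.{0}) z => P (nat (v 0)) z))
    {t : (Fin n → ZFSet.{0}) → ℕ} (ht : DfN V t) : Bo V E A m (fun v z => P (t v) z) where
  df := by
    have h1 : Df V (fun v : Fin 2 → ZFSet.{0} => P (nat (v 1)) (v 0)) := hP.df
    have h2 := Df.comp2 (P := fun x y => P (nat y) x) h1 (DfT.var (E := V) (n := n + 1) 0)
      (t := fun v : Fin (n + 1) → ZFSet.{0} => num (t (fun i => v i.succ))) ht.out.up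
    simpa only [nat_num] using h2
  bor := fun v _ => by
    have h1 := hP.bor (fun _ => num (t v)) (fun _ => num_mem_omega _)
    simpa only [nat_num] using h1

lemma M3b_cyl_memV (hE : E ∈ V) [hT : TZ V] (hA : SeqIn V A) (J : Finset ℕ) (k : ℕ → ℕ) :
    ZFSet.sep (fun z => ∀ i ∈ J, cO i m z ∈ A (k i)) (Ep E m) ∈ V := by
  classical
  induction J using Finset.induction_on with
  | empty =>
    have h1 : ZFSet.sep (fun z => ∀ i ∈ (∅ : Finset ℕ), cO i m z ∈ A (k i)) (Ep E m) = Ep E m := by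
      ext z
      rw [ZFSet.mem_sep]
      simp
    rw [h1]
    exact Ep_memV hE m
  | insert j J hj ih =>
    haveI : InE V (A (k j)) := ⟨A_memV hA (k j)⟩
    have h1 : Df V (fun v : Fin 1 → ZFSet.{0} => cO j m (v 0) ∈ A (k j)) := inferInstance
    have h2 := sep (E := V) (fun z => cO j m z ∈ A (k j)) ih
    have h3 : ZFSet.sep (fun z => ∀ i ∈ insert j J, cO i m z ∈ A (k i)) (Ep E m) =
        ZFSet.sep (fun z => cO j m z ∈ A (k j))
          (ZFSet.sep (fun z => ∀ i ∈ J, cO i m z ∈ A (k i)) (Ep E m)) := by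
      ext z
      rw [ZFSet.mem_sep, ZFSet.mem_sep, ZFSet.mem_sep]
      constructor
      · rintro ⟨hz, h⟩
        exact ⟨⟨hz, fun i hi => h i (Finset.mem_insert_of_mem hi)⟩,
          h j (Finset.mem_insert_self j J)⟩
      · rintro ⟨⟨hz, h⟩, h'⟩
        refine ⟨hz, fun i hi => ?_⟩
        rcases Finset.mem_insert.1 hi with rfl | hi
        · exact h'
        · exact h i hi
    rw [h3]
    exact h2

/-- Row M3: the sets `{z : z_i ∈ A (n i) for i ∈ J}` are Borel if the union of the `A n` is `E`.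
Induction on the number of elements of `range (m+1) \ J`. -/
lemma borel_cyl (hE : E ∈ V) [hT : TZ V] (hA : SeqIn V A) (hA' : ∀ n, A n ⊆ E)
    (hU : ∀ x ∈ E, ∃ n, x ∈ A n) (J : Finset ℕ) (hJ : J ⊆ Finset.range (m + 1)) (k : ℕ → ℕ) :
    BorelV V E A m (ZFSet.sep (fun z => ∀ i ∈ J, cO i m z ∈ A (k i)) (Ep E m)) := by
  classical
  obtain ⟨c, hc⟩ : ∃ c, (Finset.range (m + 1) \ J).card = c := ⟨_, rfl⟩
  induction c generalizing J k with
  | zero =>
    have h1 : J = Finset.range (m + 1) := by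
      refine Finset.Subset.antisymm hJ ?_
      rw [Finset.card_eq_zero, Finset.sdiff_eq_empty_iff_subset] at hc
      exact hc
    have h2 : ZFSet.sep (fun z => ∀ i ∈ J, cO i m z ∈ A (k i)) (Ep E m) = rectZ A m k := by
      ext z
      rw [ZFSet.mem_sep]
      constructor
      · rintro ⟨hz, h⟩
        rw [mem_rectZ hA' hz]
        intro i hi
        exact h i (by rw [h1, Finset.mem_range]; omega)
      · intro hz
        have hz' := rectZ_sub hA' m k hz
        refine ⟨hz', fun i hi => ?_⟩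
        rw [h1, Finset.mem_range] at hi
        exact (mem_rectZ hA' hz').1 hz i (by omega)
    rw [h2]
    exact BorelV.rect k
  | succ c ih =>
    obtain ⟨j, hj⟩ : (Finset.range (m + 1) \ J).Nonempty := by
      rw [← Finset.card_pos, hc]
      exact Nat.succ_pos c
    obtain ⟨hj1, hj2⟩ := Finset.mem_sdiff.1 hj
    obtain ⟨s, hs, hsf, hsa⟩ := seq_ap hA
    haveI : InE V s := ⟨hs⟩
    obtain ⟨B, hB⟩ : ∃ B : ZFSet.{0},
      ZFSet.sep (fun z => ∀ i ∈ J, cO i m z ∈ A (k i)) (Ep E m) = B := ⟨_, rfl⟩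
    haveI : InE V B := ⟨hB ▸ M3b_cyl_memV hE hA J k⟩
    have hd : DfT V (fun v : Fin 1 → ZFSet.{0} => ZFSet.sep (fun z => cO j m z ∈ ap s (v 0)) B) :=
      inferInstance
    have hseq := seq_of_dft (V := V) (fun y => ZFSet.sep (fun z => cO j m z ∈ ap s y) B)
    have h1 : ∀ l, ZFSet.sep (fun z => cO j m z ∈ ap s (num l)) B =
        ZFSet.sep (fun z => ∀ i ∈ insert j J, cO i m z ∈ A (Function.update k j l i))
          (Ep E m) := by
      intro l
      ext z
      rw [ZFSet.mem_sep, ← hB, ZFSet.mem_sep, ZFSet.mem_sep, hsa]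
      constructor
      · rintro ⟨⟨hz, h⟩, h'⟩
        refine ⟨hz, fun i hi => ?_⟩
        rcases Finset.mem_insert.1 hi with rfl | hi'
        · rw [Function.update_self]
          exact h'
        · have hne : i ≠ j := by
            rintro rfl
            exact hj2 hi'
          rw [Function.update_of_ne hne]
          exact h i hi'
      · rintro ⟨hz, h⟩
        refine ⟨⟨hz, fun i hi => ?_⟩, ?_⟩
        · have hne : i ≠ j := by
            rintro rfl
            exact hj2 hi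
          have := h i (Finset.mem_insert_of_mem hi)
          rwa [Function.update_of_ne hne] at this
        · have := h j (Finset.mem_insert_self j J)
          rwa [Function.update_self] at this
    have h2 : ∀ l, BorelV V E A m (ZFSet.sep (fun z => cO j m z ∈ ap s (num l)) B) := by
      intro l
      rw [h1]
      refine ih (insert j J) ?_ _ ?_
      · intro i hi
        rcases Finset.mem_insert.1 hi with rfl | hi
        · exact hj1
        · exact hJ hi
      · have h3 : Finset.range (m + 1) \ insert j J = (Finset.range (m + 1) \ J).erase j := by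
          ext i
          simp only [Finset.mem_sdiff, Finset.mem_insert, Finset.mem_erase]
          tauto
        rw [h3, Finset.card_erase_of_mem hj, hc]
        rfl
    have h3 : B = uni (fun l => ZFSet.sep (fun z => cO j m z ∈ ap s (num l)) B) := by
      ext z
      rw [mem_uni]
      constructor
      · intro hz
        have hz' : z ∈ Ep E m := by
          rw [← hB] at hz
          exact (ZFSet.mem_sep.1 hz).1
        obtain ⟨l, hl⟩ := hU _ (cO_mem (i := j) hz')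
        exact ⟨l, ZFSet.mem_sep.2 ⟨hz, by rw [hsa]; exact hl⟩⟩
      · rintro ⟨l, hl⟩
        exact (ZFSet.mem_sep.1 hl).1
    rw [hB, h3]
    exact BorelV.union _ hseq h2

/-- Row M3: the atomic formulas. -/
lemma Bo.atom (hE : E ∈ V) [hT : TZ V] [hR : RV V] (hA : SeqIn V A) (hA' : ∀ n, A n ⊆ E)
    (hU : ∀ x ∈ E, ∃ n, x ∈ A n) {s : ZFSet.{0}} (hs : s ∈ V) (hsA : ∀ n, ap s (num n) = A n)
    {i : ℕ} (hi : i ≤ m) {t : (Fin n → ZFSet.{0}) → ℕ} (ht : DfN V t) :
    Bo V E A m (fun v z => cO i m z ∈ ap s (num (t v))) where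
  df := by
    haveI : InE V s := ⟨hs⟩
    have ht1 := ht.up
    infer_instance
  bor := by
    intro v hv
    have h1 := borel_cyl (m := m) hE hA hA' hU {i} (by
      intro j hj
      rw [Finset.mem_singleton.1 hj, Finset.mem_range]
      omega) (fun _ => t v)
    have h2 : ZFSet.sep (fun z => cO i m z ∈ ap s (num (t v))) (Ep E m) =
        ZFSet.sep (fun z => ∀ j ∈ ({i} : Finset ℕ), cO j m z ∈ A ((fun _ => t v) j))
          (Ep E m) := by
      ext z
      rw [ZFSet.mem_sep, ZFSet.mem_sep, hsA]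
      simp
    show BorelV V E A m (ZFSet.sep (fun z => cO i m z ∈ ap s (num (t v))) (Ep E m))
    rw [h2]
    exact h1

/-- `R` is a function from `E^(m+1)` to the reals such that `{z : n ∈ R z}` is Borel, uniformly. -/
def BoR (V : Set ZFSet.{0}) (E : ZFSet.{0}) (A : ℕ → ZFSet.{0}) (m : ℕ)
    (R : ZFSet.{0} → ZFSet.{0}) : Prop :=
  Bo V E A m (fun (v : Fin 1 → ZFSet.{0}) z => el (R z) (nat (v 0)))

/-- Row M3: the relation `Wit` is Borel. -/
lemma Bo.wit (hE : E ∈ V) [hT : TZ V] [hR : RV V] (hA : SeqIn V A) (hA' : ∀ n, A n ⊆ E)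
    {R₁ R₂ R₃ : ZFSet.{0} → ZFSet.{0}} (h1 : BoR V E A m R₁) (h2 : BoR V E A m R₂)
    (h3 : BoR V E A m R₃) :
    BorelV V E A m (ZFSet.sep (fun z => Wit (R₁ z) (R₂ z) (R₃ z)) (Ep E m)) := by
  -- the variables: `s = nat (v 2)`, `l = nat (v 1)`, the innermost is `nat (v 0)`
  have a1 : Bo V E A m (fun (v : Fin 3 → ZFSet.{0}) z =>
      Child (nat (v 2)) (nat (v 0)) → el (R₃ z) (nat (v 0))) :=
    Bo.imp hE hA hA' (Bo.par hE hA hA' inferInstance)
      (Bo.subst (P := fun k z => el (R₃ z) k) h3 inferInstance)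
  have a2 : Bo V E A m (fun (v : Fin 2 → ZFSet.{0}) z =>
      nat (v 0) = 0 → ∀ s' : ℕ, Child (nat (v 1)) s' → el (R₃ z) s') :=
    Bo.imp hE hA hA' (Bo.par hE hA hA' inferInstance)
      (Bo.all hE (P := fun s' (v : Fin 2 → ZFSet.{0}) z => Child (nat (v 1)) s' → el (R₃ z) s') a1)
  have b1 : Bo V E A m (fun (v : Fin 3 → ZFSet.{0}) z =>
      Child (nat (v 2)) (nat (v 0)) ∧ el (R₃ z) (nat (v 0))) :=
    Bo.and hE hA hA' (Bo.par hE hA hA' inferInstance)
      (Bo.subst (P := fun k z => el (R₃ z) k) h3 inferInstance)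
  have b2 : Bo V E A m (fun (v : Fin 2 → ZFSet.{0}) z =>
      nat (v 0) = 1 → ∃ s' : ℕ, Child (nat (v 1)) s' ∧ el (R₃ z) s') :=
    Bo.imp hE hA hA' (Bo.par hE hA hA' inferInstance)
      (Bo.ex hE (P := fun s' (v : Fin 2 → ZFSet.{0}) z => Child (nat (v 1)) s' ∧ el (R₃ z) s') b1)
  have c1 : Bo V E A m (fun (v : Fin 3 → ZFSet.{0}) z =>
      nat (v 1) = L1 (nat (v 0)) → el (R₂ z) (nat (v 0))) :=
    Bo.imp hE hA hA' (Bo.par hE hA hA' inferInstance)
      (Bo.subst (P := fun k z => el (R₂ z) k) h2 inferInstance)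
  have c2 : Bo V E A m (fun (v : Fin 2 → ZFSet.{0}) z =>
      ∀ i : ℕ, nat (v 0) = L1 i → el (R₂ z) i) :=
    Bo.all hE (P := fun i (v : Fin 2 → ZFSet.{0}) z => nat (v 0) = L1 i → el (R₂ z) i) c1
  have d1 : Bo V E A m (fun (v : Fin 3 → ZFSet.{0}) z =>
      nat (v 1) = L0 (nat (v 0)) → ¬ el (R₂ z) (nat (v 0))) :=
    Bo.imp hE hA hA' (Bo.par hE hA hA' inferInstance)
      (Bo.not (Bo.subst (P := fun k z => el (R₂ z) k) h2 inferInstance))
  have d2 : Bo V E A m (fun (v : Fin 2 → ZFSet.{0}) z =>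
      ∀ i : ℕ, nat (v 0) = L0 i → ¬ el (R₂ z) i) :=
    Bo.all hE (P := fun i (v : Fin 2 → ZFSet.{0}) z => nat (v 0) = L0 i → ¬ el (R₂ z) i) d1
  have e1 : Bo V E A m (fun (v : Fin 2 → ZFSet.{0}) z =>
      el (R₁ z) (Nat.pair (nat (v 1)) (nat (v 0))) →
        (nat (v 0) = 0 → ∀ s' : ℕ, Child (nat (v 1)) s' → el (R₃ z) s') ∧
        (nat (v 0) = 1 → ∃ s' : ℕ, Child (nat (v 1)) s' ∧ el (R₃ z) s') ∧
        (∀ i : ℕ, nat (v 0) = L1 i → el (R₂ z) i) ∧
        (∀ i : ℕ, nat (v 0) = L0 i → ¬ el (R₂ z) i)) :=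
    Bo.imp hE hA hA' (Bo.subst (P := fun k z => el (R₁ z) k)
        (t := fun v : Fin 2 → ZFSet.{0} => Nat.pair (nat (v 1)) (nat (v 0))) h1 inferInstance)
      (Bo.and hE hA hA' a2 (Bo.and hE hA hA' b2 (Bo.and hE hA hA' c2 d2)))
  have e2 : Bo V E A m (fun (v : Fin 1 → ZFSet.{0}) z => ∀ l : ℕ,
      el (R₁ z) (Nat.pair (nat (v 0)) l) →
        (l = 0 → ∀ s' : ℕ, Child (nat (v 0)) s' → el (R₃ z) s') ∧
        (l = 1 → ∃ s' : ℕ, Child (nat (v 0)) s' ∧ el (R₃ z) s') ∧
        (∀ i : ℕ, l = L1 i → el (R₂ z) i) ∧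
        (∀ i : ℕ, l = L0 i → ¬ el (R₂ z) i)) :=
    Bo.all hE (P := fun l (v : Fin 1 → ZFSet.{0}) z => el (R₁ z) (Nat.pair (nat (v 0)) l) →
        (l = 0 → ∀ s' : ℕ, Child (nat (v 0)) s' → el (R₃ z) s') ∧
        (l = 1 → ∃ s' : ℕ, Child (nat (v 0)) s' ∧ el (R₃ z) s') ∧
        (∀ i : ℕ, l = L1 i → el (R₂ z) i) ∧
        (∀ i : ℕ, l = L0 i → ¬ el (R₂ z) i)) e1
  have f1 : Bo V E A m (fun (v : Fin 1 → ZFSet.{0}) z => el (R₃ z) (nat (v 0)) → ∀ l : ℕ,
      el (R₁ z) (Nat.pair (nat (v 0)) l) →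
        (l = 0 → ∀ s' : ℕ, Child (nat (v 0)) s' → el (R₃ z) s') ∧
        (l = 1 → ∃ s' : ℕ, Child (nat (v 0)) s' ∧ el (R₃ z) s') ∧
        (∀ i : ℕ, l = L1 i → el (R₂ z) i) ∧
        (∀ i : ℕ, l = L0 i → ¬ el (R₂ z) i)) :=
    Bo.imp hE hA hA' (Bo.subst (P := fun k z => el (R₃ z) k) h3 inferInstance) e2
  have f2 : Bo V E A m (fun (v : Fin 0 → ZFSet.{0}) z => ∀ s : ℕ, el (R₃ z) s → ∀ l : ℕ,
      el (R₁ z) (Nat.pair s l) →
        (l = 0 → ∀ s' : ℕ, Child s s' → el (R₃ z) s') ∧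
        (l = 1 → ∃ s' : ℕ, Child s s' ∧ el (R₃ z) s') ∧
        (∀ i : ℕ, l = L1 i → el (R₂ z) i) ∧
        (∀ i : ℕ, l = L0 i → ¬ el (R₂ z) i)) :=
    Bo.all hE (P := fun s (_ : Fin 0 → ZFSet.{0}) z => el (R₃ z) s → ∀ l : ℕ,
      el (R₁ z) (Nat.pair s l) →
        (l = 0 → ∀ s' : ℕ, Child s s' → el (R₃ z) s') ∧
        (l = 1 → ∃ s' : ℕ, Child s s' ∧ el (R₃ z) s') ∧
        (∀ i : ℕ, l = L1 i → el (R₂ z) i) ∧
        (∀ i : ℕ, l = L0 i → ¬ el (R₂ z) i)) f1
  have g1 : Bo V E A m (fun (v : Fin 0 → ZFSet.{0}) z => el (R₃ z) 0) :=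
    Bo.subst (P := fun k z => el (R₃ z) k) (t := fun _ : Fin 0 → ZFSet.{0} => 0) h3 inferInstance
  exact (Bo.and hE hA hA' g1 f2).bor Fin.elim0 (fun i => i.elim0)

/-- Row M3: the real `Hs s k` of the first `k + 1` coordinates. -/
lemma BoR.hs (hE : E ∈ V) [hT : TZ V] [hR : RV V] (hA : SeqIn V A) (hA' : ∀ n, A n ⊆ E)
    (hU : ∀ x ∈ E, ∃ n, x ∈ A n) {s : ZFSet.{0}} (hs : s ∈ V) (hsA : ∀ n, ap s (num n) = A n)
    {k : ℕ} (hk : k ≤ m) :
    BoR V E A m (fun z => nset {i | i.unpair.1 ≤ k ∧ cO i.unpair.1 m z ∈ A i.unpair.2}) := by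
  have key : ∀ j ≤ m, Bo V E A m (fun (v : Fin 1 → ZFSet.{0}) z =>
      (nat (v 0)).unpair.1 = j ∧ cO j m z ∈ ap s (num (nat (v 0)).unpair.2)) := by
    intro j hj
    exact Bo.and hE hA hA' (Bo.par hE hA hA' inferInstance)
      (Bo.atom hE hA hA' hU hs hsA hj (t := fun v : Fin 1 → ZFSet.{0} => (nat (v 0)).unpair.2)
        inferInstance)
  have main : Bo V E A m (fun (v : Fin 1 → ZFSet.{0}) z =>
      (nat (v 0)).unpair.1 ≤ k ∧ cO (nat (v 0)).unpair.1 m z ∈ A (nat (v 0)).unpair.2) := by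
    induction k with
    | zero =>
      refine (key 0 (Nat.zero_le m)).congr fun v z => ?_
      rw [hsA]
      constructor
      · rintro ⟨h1, h2⟩
        rw [h1]
        exact ⟨le_rfl, h2⟩
      · rintro ⟨h1, h2⟩
        have h3 : (nat (v 0)).unpair.1 = 0 := by omega
        rw [h3] at h2
        exact ⟨h3, h2⟩
    | succ k ih =>
      refine (Bo.or hE hA hA' (ih (by omega)) (key (k + 1) hk)).congr fun v z => ?_
      rw [hsA]
      constructor
      · rintro (⟨h1, h2⟩ | ⟨h1, h2⟩)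
        · exact ⟨by omega, h2⟩
        · rw [h1]
          exact ⟨le_rfl, h2⟩
      · rintro ⟨h1, h2⟩
        rcases Nat.lt_or_eq_of_le h1 with h3 | h3
        · exact Or.inl ⟨by omega, h2⟩
        · right
          rw [h3] at h2
          exact ⟨h3, h2⟩
  exact main.congr fun v z => by rw [el_nset]; rfl

end Pool.LCM
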