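import Pool.Agent.Lib.MP_1c8600_m.Gen
import Pool.Agent.Lib.MP_1c8600_m.Bo

/-!
# MP_1c8600_lc, model side, row M5: universal sets and the diagonal argument
-/

set_option autoImplicit false
set_option linter.unusedVariables false
set_option linter.style.haveILetI false

open Set

namespace Pool.LCM

open Pool.MP_3ade05_lc Pool.PC Pool.MP_1c8600_lc
open Pool.UT hiding pw

variable {V : Set ZFSet.{0}} {E : ZFSet.{0}} {A : ℕ → ZFSet.{0}} {m n : ℕ}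

/-- `∃ y₁ ∈ E, ¬ ∃ y₂ ∈ E, ¬ ⋯ ∃ y_{k+1} ∈ E, P (z, y₁, …, y_{k+1})`. -/
def Qn (E : ZFSet.{0}) : ℕ → (ZFSet.{0} → Prop) → ZFSet.{0} → Prop
  | 0, P, z => ∃ y ∈ E, P (ZFSet.pair z y)
  | k + 1, P, z => ∃ y ∈ E, ¬ Qn E k P (ZFSet.pair z y)

/-- Row M5. -/
lemma Qn_congr {P P' : ZFSet.{0} → Prop} {k m : ℕ}
    (h : ∀ z ∈ Ep E (m + k + 1), (P z ↔ P' z)) {z : ZFSet.{0}} (hz : z ∈ Ep E m) :
    Qn E k P z ↔ Qn E k P' z := by
  induction k generalizing m z with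
  | zero =>
    constructor
    · rintro ⟨y, hy, hP⟩
      exact ⟨y, hy, (h _ (pair_mem_Ep.2 ⟨hz, hy⟩)).1 hP⟩
    · rintro ⟨y, hy, hP⟩
      exact ⟨y, hy, (h _ (pair_mem_Ep.2 ⟨hz, hy⟩)).2 hP⟩
  | succ k ih =>
    have h' : ∀ z ∈ Ep E (m + 1 + k + 1), (P z ↔ P' z) := by
      rw [show m + 1 + k + 1 = m + (k + 1) + 1 by omega]
      exact h
    constructor
    · rintro ⟨y, hy, hP⟩
      exact ⟨y, hy, fun hQ => hP ((ih h' (pair_mem_Ep.2 ⟨hz, hy⟩)).2 hQ)⟩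
    · rintro ⟨y, hy, hP⟩
      exact ⟨y, hy, fun hQ => hP ((ih h' (pair_mem_Ep.2 ⟨hz, hy⟩)).1 hQ)⟩

/-- Row M5: from a Borel matrix to `Σ_{k+1}`. -/
lemma sigma_of_Qn {P : ZFSet.{0} → Prop} {k m : ℕ}
    (h : BorelV V E A (m + k + 1) (ZFSet.sep P (Ep E (m + k + 1)))) :
    SigmaV V E A k m (ZFSet.sep (Qn E k P) (Ep E m)) := by
  induction k generalizing m with
  | zero =>
    refine ⟨_, h, ?_⟩
    ext z
    unfold projZ
    rw [ZFSet.mem_sep, ZFSet.mem_sep]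
    refine and_congr_right fun hz => ?_
    constructor
    · rintro ⟨y, hy, hP⟩
      exact ⟨y, hy, ZFSet.mem_sep.2 ⟨pair_mem_Ep.2 ⟨hz, hy⟩, hP⟩⟩
    · rintro ⟨y, hy, hP⟩
      exact ⟨y, hy, (ZFSet.mem_sep.1 hP).2⟩
  | succ k ih =>
    have h' : BorelV V E A (m + 1 + k + 1) (ZFSet.sep P (Ep E (m + 1 + k + 1))) := by
      rw [show m + 1 + k + 1 = m + (k + 1) + 1 by omega]
      exact h
    refine ⟨_, ih h', ?_⟩
    ext z
    unfold projZ
    rw [ZFSet.mem_sep, ZFSet.mem_sep]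
    refine and_congr_right fun hz => ?_
    constructor
    · rintro ⟨y, hy, hP⟩
      exact ⟨y, hy, ZFSet.mem_sdiff.2 ⟨pair_mem_Ep.2 ⟨hz, hy⟩,
        fun hQ => hP (ZFSet.mem_sep.1 hQ).2⟩⟩
    · rintro ⟨y, hy, hP⟩
      obtain ⟨h1, h2⟩ := ZFSet.mem_sdiff.1 hP
      exact ⟨y, hy, fun hQ => h2 (ZFSet.mem_sep.2 ⟨h1, hQ⟩)⟩

/-- Row M5: every `Σ_{k+1}` set is a section of the universal set. -/
lemma sigma_code [hT : TC V] [hR : RV V] (hE : E ∈ V) (hA : SeqIn V A) (hA' : ∀ n, A n ⊆ E)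
    {s : ZFSet.{0}} (hs : s ∈ V) (hsA : ∀ n, ap s (num n) = A n) {k m : ℕ} {S : ZFSet.{0}}
    (hS : SigmaV V E A k m S) :
    ∃ t ∈ V, t ⊆ ZFSet.omega ∧ ∀ z, (z ∈ S ↔ z ∈ Ep E m ∧
      Qn E k (fun z' => Tru V t (Hs s (m + k + 1) z')) z) := by
  induction k generalizing m S with
  | zero =>
    obtain ⟨B, hB, rfl⟩ := hS
    obtain ⟨t, ht, htω, h⟩ := borel_code hE hA hA' hs hsA hB
    refine ⟨t, ht, htω, fun z => ?_⟩
    unfold projZ
    rw [ZFSet.mem_sep]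
    refine and_congr_right fun hz => ?_
    constructor
    · rintro ⟨y, hy, hP⟩
      exact ⟨y, hy, (h _ (pair_mem_Ep.2 ⟨hz, hy⟩)).1 hP⟩
    · rintro ⟨y, hy, hP⟩
      exact ⟨y, hy, (h _ (pair_mem_Ep.2 ⟨hz, hy⟩)).2 hP⟩
  | succ k ih =>
    obtain ⟨T, hT1, rfl⟩ := hS
    obtain ⟨t, ht, htω, h⟩ := ih hT1
    rw [show m + 1 + k + 1 = m + (k + 1) + 1 by omega] at h
    refine ⟨t, ht, htω, fun z => ?_⟩
    unfold projZ
    rw [ZFSet.mem_sep]
    refine and_congr_right fun hz => ?_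
    constructor
    · rintro ⟨y, hy, hP⟩
      obtain ⟨h1, h2⟩ := ZFSet.mem_sdiff.1 hP
      exact ⟨y, hy, fun hQ => h2 ((h _).2 ⟨h1, hQ⟩)⟩
    · rintro ⟨y, hy, hP⟩
      exact ⟨y, hy, ZFSet.mem_sdiff.2 ⟨pair_mem_Ep.2 ⟨hz, hy⟩, fun hQ => hP ((h _).1 hQ).2⟩⟩

/-- Row M5: if the last two quantifiers are existential, a dummy quantifier is inserted. -/
lemma Qn_dummy {P : ZFSet.{0} → Prop} {k : ℕ} {z : ZFSet.{0}} :
    Qn E k (fun z' => ∃ y ∈ E, P (ZFSet.pair z' y)) z ↔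
      Qn E (k + 2) (fun z' => P (ZFSet.pair (fstZ (fstZ z')) (sndZ z'))) z := by
  induction k generalizing z with
  | zero =>
    constructor
    · rintro ⟨y1, hy1, y3, hy3, hP⟩
      refine ⟨y1, hy1, ?_⟩
      rintro ⟨y2, hy2, hQ⟩
      apply hQ
      refine ⟨y3, hy3, ?_⟩
      show P (ZFSet.pair (fstZ (fstZ (ZFSet.pair (ZFSet.pair (ZFSet.pair z y1) y2) y3)))
        (sndZ (ZFSet.pair (ZFSet.pair (ZFSet.pair z y1) y2) y3)))
      rw [fstZ_pair, fstZ_pair, sndZ_pair]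
      exact hP
    · rintro ⟨y1, hy1, h⟩
      by_contra hcon
      apply h
      refine ⟨y1, hy1, ?_⟩
      rintro ⟨y3, hy3, hP⟩
      apply hcon
      refine ⟨y1, hy1, y3, hy3, ?_⟩
      change P (ZFSet.pair (fstZ (fstZ (ZFSet.pair (ZFSet.pair (ZFSet.pair z y1) y1) y3)))
        (sndZ (ZFSet.pair (ZFSet.pair (ZFSet.pair z y1) y1) y3))) at hP
      rw [fstZ_pair, fstZ_pair, sndZ_pair] at hP
      exact hP
  | succ k ih =>
    constructor
    · rintro ⟨y, hy, h⟩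
      exact ⟨y, hy, fun hQ => h (ih.2 hQ)⟩
    · rintro ⟨y, hy, h⟩
      exact ⟨y, hy, fun hQ => h (ih.1 hQ)⟩

/-- Row M5: the first coordinate is fixed. -/
lemma Qn_first {P : ZFSet.{0} → ZFSet.{0} → Prop} (k : ℕ) : ∀ {m : ℕ} {z : ZFSet.{0}},
    (Qn E k (fun z' => P (cO 0 (m + k + 1) z') z') z ↔ Qn E k (fun z' => P (cO 0 m z) z') z) := by
  induction k with
  | zero =>
    intro m z
    show (∃ y ∈ E, P (cO 0 (m + 0 + 1) (ZFSet.pair z y)) (ZFSet.pair z y)) ↔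
      ∃ y ∈ E, P (cO 0 m z) (ZFSet.pair z y)
    refine exists_congr fun y => and_congr_right fun _ => ?_
    rw [show m + 0 + 1 = m + 1 by omega, cO_pair (Nat.zero_le m)]
  | succ k ih =>
    intro m z
    show (∃ y ∈ E, ¬ Qn E k (fun z' => P (cO 0 (m + (k + 1) + 1) z') z') (ZFSet.pair z y)) ↔
      ∃ y ∈ E, ¬ Qn E k (fun z' => P (cO 0 m z) z') (ZFSet.pair z y)
    refine exists_congr fun y => and_congr_right fun _ => not_congr ?_
    have h1 := ih (m := m + 1) (z := ZFSet.pair z y)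
    rw [cO_pair (Nat.zero_le m), show m + 1 + k + 1 = m + (k + 1) + 1 by omega] at h1
    exact h1

/-- Row M5: THE DIAGONAL ARGUMENT. `F` maps `E` onto the reals and is Borel. -/
theorem not_propB [hT : TC V] [hR : RV V] (hE : E ∈ V) (hA : SeqIn V A) (hA' : ∀ n, A n ⊆ E)
    (hU : ∀ x ∈ E, ∃ n, x ∈ A n) (F : ZFSet.{0} → ZFSet.{0})
    (hF : ∀ m i, i ≤ m → BoR V E A m (fun z => F (cO i m z)))
    (hFV : ∀ x ∈ E, F x ∈ V)
    (ho : ∀ g ∈ V, ∃ x ∈ E, ∀ n, (el (F x) n ↔ el g n)) (k : ℕ) : ¬ PropBV V E A k := by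
  intro hB
  obtain ⟨s, hs, hsf, hsA⟩ := seq_ap hA
  have hTru : ∀ t ρ, (Tru V t ρ ↔ ∃ y ∈ E, Wit t ρ (F y)) := by
    intro t ρ
    constructor
    · rintro ⟨g, hg, h⟩
      obtain ⟨y, hy, hyg⟩ := ho g hg
      exact ⟨y, hy, (wit_congr (fun _ => Iff.rfl) (fun _ => Iff.rfl) hyg).2 h⟩
    · rintro ⟨y, hy, h⟩
      exact ⟨F y, hFV y hy, h⟩
  set Q : ZFSet.{0} → Prop :=
    Qn E k (fun z' => Tru V (F (cO 0 (0 + k + 1) z')) (Hs s (0 + k + 1) z')) with hQ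
  set T : ZFSet.{0} := ZFSet.sep Q E with hTd
  -- the complement of the diagonal set is in `Σ_{k+3}`
  have hsig : SigmaV V E A (k + 2) 0 T := by
    set M : ℕ := 0 + (k + 2) + 1 with hM
    have hM' : M = k + 3 := by omega
    set P'' : ZFSet.{0} → Prop := fun z => Wit (F (cO 0 M z))
      (nset {i | i.unpair.1 ≤ k + 1 ∧ cO i.unpair.1 M z ∈ A i.unpair.2})
      (F (cO (k + 3) M z)) with hP''
    have hbor : BorelV V E A M (ZFSet.sep P'' (Ep E M)) :=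
      Bo.wit hE hA hA' (hF M 0 (Nat.zero_le _)) (BoR.hs hE hA hA' hU hs hsA (by omega))
        (hF M (k + 3) (by omega))
    have h1 := sigma_of_Qn (V := V) (E := E) (A := A) (k := k + 2) (m := 0) hbor
    have h2 : ZFSet.sep (Qn E (k + 2) P'') (Ep E 0) = T := by
      ext x
      rw [hTd, ZFSet.mem_sep, ZFSet.mem_sep]
      refine and_congr_right fun hx => ?_
      rw [hQ]
      have hx0 : x ∈ Ep E 0 := hx
      have g1 : Qn E k (fun z' => Tru V (F (cO 0 (0 + k + 1) z')) (Hs s (0 + k + 1) z')) x ↔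
          Qn E k (fun z' => ∃ y ∈ E, (fun w => Wit (F (cO 0 (0 + k + 1) (fstZ w)))
            (Hs s (0 + k + 1) (fstZ w)) (F (sndZ w))) (ZFSet.pair z' y)) x := by
        refine Qn_congr (m := 0) (fun z hz => ?_) hx0
        rw [hTru]
        simp only [fstZ_pair, sndZ_pair]
      refine Iff.trans ?_ (g1.trans (Qn_dummy (P := fun w => Wit (F (cO 0 (0 + k + 1) (fstZ w)))
        (Hs s (0 + k + 1) (fstZ w)) (F (sndZ w))))).symm
      refine (Qn_congr (m := 0) (fun z hz => ?_) hx0).symm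
      rw [← hM, hM'] at hz
      obtain ⟨z1, hz1, y', hy', rfl⟩ := mem_Ep_succ.1 hz
      obtain ⟨w, hw, v, hv, rfl⟩ := mem_Ep_succ.1 hz1
      simp only [fstZ_pair, sndZ_pair, hP'']
      rw [hM', show 0 + k + 1 = k + 1 by omega]
      rw [cO_pair (m := k + 2) (Nat.zero_le _), cO_pair (m := k + 1) (Nat.zero_le _)]
      rw [show cO (k + 3) (k + 3) (ZFSet.pair (ZFSet.pair w v) y') = y' from cO_last (k + 2) _ _]
      refine wit_congr (fun _ => Iff.rfl) (fun i => ?_) (fun _ => Iff.rfl)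
      rw [el_Hs hsA hw, el_nset]
      show _ ↔ i.unpair.1 ≤ k + 1 ∧ cO i.unpair.1 (k + 3) _ ∈ A i.unpair.2
      refine and_congr_right fun hi => ?_
      rw [cO_pair (m := k + 2) (by omega), cO_pair (m := k + 1) hi]
    rw [← h2]
    exact h1
  have h3 := hB (E \ T) ⟨k + 2, Or.inr ⟨T, hsig, rfl⟩⟩
  obtain ⟨t, ht, htω, h4⟩ := sigma_code hE hA hA' hs hsA h3
  obtain ⟨e, he, het⟩ := ho t ht
  have h5 := h4 e
  rw [ZFSet.mem_sdiff, hTd, ZFSet.mem_sep, hQ] at h5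
  have h6 : Qn E k (fun z' => Tru V (F (cO 0 (0 + k + 1) z')) (Hs s (0 + k + 1) z')) e ↔
      Qn E k (fun z' => Tru V t (Hs s (0 + k + 1) z')) e := by
    rw [Qn_first (P := fun x z' => Tru V (F x) (Hs s (0 + k + 1) z')) k (m := 0) (z := e)]
    exact Qn_congr (m := 0) (fun z _ => tru_congr het fun _ => Iff.rfl) he
  rw [h6] at h5
  have he0 : e ∈ Ep E 0 := he
  tauto

end Pool.LCM
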