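import Pool.Agent.Lib.MP_1c8600_m.Basic

/-!
# MP_1c8600_lc, model side, row M7: the case that the union of the `A n` is not `E`
-/

set_option autoImplicit false
set_option linter.unusedVariables false
set_option linter.style.haveILetI false

open Set

namespace Pool.LCM

open Pool.MP_3ade05_lc Pool.PC Pool.MP_1c8600_lc
open Pool.UT hiding pw

variable {V : Set ZFSet.{0}} {E : ZFSet.{0}} {A : ℕ → ZFSet.{0}} {m n : ℕ}

/-- All coordinates of all points of `S` belong to some `A n`. -/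
def Sm (A : ℕ → ZFSet.{0}) (m : ℕ) (S : ZFSet.{0}) : Prop :=
  ∀ z ∈ S, ∀ i ≤ m, ∃ n, cO i m z ∈ A n

/-- Row M7: a Borel set or its complement is small. -/
lemma sm_or (hA' : ∀ n, A n ⊆ E) {S : ZFSet.{0}} (hS : BorelV V E A m S) :
    Sm A m S ∨ Sm A m (Ep E m \ S) := by
  induction hS with
  | rect k =>
    left
    intro z hz i hi
    exact ⟨k i, (mem_rectZ hA' (rectZ_sub hA' m k hz)).1 hz i hi⟩
  | compl S _ ih =>
    rcases ih with h | h
    · right
      intro z hz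
      obtain ⟨h1, h2⟩ := ZFSet.mem_sdiff.1 hz
      refine h z ?_
      by_contra h3
      exact h2 (ZFSet.mem_sdiff.2 ⟨h1, h3⟩)
    · exact Or.inl h
  | union S hS _ ih =>
    by_cases hall : ∀ n, Sm A m (S n)
    · left
      intro z hz
      obtain ⟨n, hn⟩ := mem_uni.1 hz
      exact hall n z hn
    · right
      push Not at hall
      obtain ⟨n, hn⟩ := hall
      have h1 := (ih n).resolve_left hn
      intro z hz
      obtain ⟨h2, h3⟩ := ZFSet.mem_sdiff.1 hz
      exact h1 z (ZFSet.mem_sdiff.2 ⟨h2, fun h4 => h3 (mem_uni.2 ⟨n, h4⟩)⟩)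

lemma nu_mem_proj {X Y S x : ZFSet.{0}} :
    x ∈ projZ X Y S ↔ x ∈ X ∧ ∃ y ∈ Y, ZFSet.pair x y ∈ S := by
  unfold projZ
  rw [ZFSet.mem_sep]

/-- Row M7: `Σ_1` sets are small or everything. -/
lemma sigma_zero (hA' : ∀ n, A n ⊆ E) {p : ZFSet.{0}} (hp : p ∈ E) (hpA : ∀ n, p ∉ A n)
    {S : ZFSet.{0}} (hS : SigmaV V E A 0 m S) : Sm A m S ∨ S = Ep E m := by
  obtain ⟨B, hB, rfl⟩ := hS
  rcases sm_or hA' hB with h | h
  · left
    intro z hz i hi
    obtain ⟨h1, y, hy, h2⟩ := nu_mem_proj.1 hz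
    obtain ⟨n, hn⟩ := h _ h2 i (by omega)
    rw [cO_pair hi] at hn
    exact ⟨n, hn⟩
  · right
    ext z
    rw [nu_mem_proj]
    constructor
    · exact fun h1 => h1.1
    · intro hz
      refine ⟨hz, p, hp, ?_⟩
      by_contra h1
      obtain ⟨n, hn⟩ := h _ (ZFSet.mem_sdiff.2 ⟨pair_mem_Ep.2 ⟨hz, hp⟩, h1⟩) (m + 1) le_rfl
      rw [cO_last] at hn
      exact hpA n hn

/-- Row M7: `Σ_{k+2}` sets are trivial. -/
lemma sigma_succ (hA' : ∀ n, A n ⊆ E) {p : ZFSet.{0}} (hp : p ∈ E) (hpA : ∀ n, p ∉ A n)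
    {k : ℕ} {S : ZFSet.{0}} (hS : SigmaV V E A (k + 1) m S) : S = ∅ ∨ S = Ep E m := by
  have hall : ∀ T : ZFSet.{0}, T = Ep E (m + 1) →
      projZ (Ep E m) E (Ep E (m + 1) \ T) = ∅ := by
    rintro T rfl
    rw [ZFSet.eq_empty]
    intro z hz
    obtain ⟨h1, y, hy, h2⟩ := nu_mem_proj.1 hz
    obtain ⟨h3, h4⟩ := ZFSet.mem_sdiff.1 h2
    exact h4 h3
  have hsm : ∀ T : ZFSet.{0}, (∀ z, ZFSet.pair z p ∉ T) →
      projZ (Ep E m) E (Ep E (m + 1) \ T) = Ep E m := by
    intro T hT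
    ext z
    rw [nu_mem_proj]
    constructor
    · exact fun h1 => h1.1
    · intro hz
      exact ⟨hz, p, hp, ZFSet.mem_sdiff.2 ⟨pair_mem_Ep.2 ⟨hz, hp⟩, hT z⟩⟩
  induction k generalizing m S with
  | zero =>
    obtain ⟨T, hT, rfl⟩ := hS
    rcases sigma_zero hA' hp hpA hT with h | h
    · right
      refine hsm T fun z hz => ?_
      obtain ⟨n, hn⟩ := h _ hz (m + 1) le_rfl
      rw [cO_last] at hn
      exact hpA n hn
    · left
      exact hall T h
  | succ k ih =>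
    obtain ⟨T, hT, rfl⟩ := hS
    have hTt : T = ∅ ∨ T = Ep E (m + 1) := by
      refine ih hT ?_ ?_
      · rintro T rfl
        rw [ZFSet.eq_empty]
        intro z hz
        obtain ⟨h1, y, hy, h2⟩ := nu_mem_proj.1 hz
        obtain ⟨h3, h4⟩ := ZFSet.mem_sdiff.1 h2
        exact h4 h3
      · intro T hT
        ext z
        rw [nu_mem_proj]
        constructor
        · exact fun h1 => h1.1
        · intro hz
          exact ⟨hz, p, hp, ZFSet.mem_sdiff.2 ⟨pair_mem_Ep.2 ⟨hz, hp⟩, hT z⟩⟩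
    rcases hTt with h | h
    · right
      refine hsm T fun z hz => ?_
      rw [h] at hz
      exact ZFSet.notMem_empty _ hz
    · left
      exact hall T h

/-- Row M7: a nonempty set `A l` is `Σ_1`: it is the projection of `A l × A l`. -/
lemma sigma_A (hA' : ∀ n, A n ⊆ E) (l : ℕ) : SigmaV V E A 0 0 (A l) := by
  refine ⟨rectZ A 1 (fun _ => l), BorelV.rect _, ?_⟩
  ext z
  rw [nu_mem_proj]
  show z ∈ A l ↔ z ∈ E ∧ ∃ y ∈ E, ZFSet.pair z y ∈ (A l).prod (A l)
  constructor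
  · intro hz
    exact ⟨hA' l hz, z, hA' l hz, ZFSet.pair_mem_prod.2 ⟨hz, hz⟩⟩
  · rintro ⟨_, y, _, h⟩
    exact (ZFSet.pair_mem_prod.1 h).1

/-- Row M7: the case that the union of the `A n` is not `E`. -/
theorem not_of_union [hT : TZ V] (hE : E ∈ V) (hA : SeqIn V A) (hA' : ∀ n, A n ⊆ E)
    {p : ZFSet.{0}} (hp : p ∈ E) (hpA : ∀ n, p ∉ A n) (ha : PropAV V E A) (k : ℕ) :
    ¬ PropBV V E A k := by
  intro hb
  have hempty : ∀ l, A l = ∅ := by
    intro l
    cases k with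
    | zero =>
      have h1 : SigmaV V E A 0 0 (E \ A l) :=
        hb _ ⟨0, Or.inr ⟨A l, sigma_A hA' l, rfl⟩⟩
      have hpm : p ∈ E \ A l := ZFSet.mem_sdiff.2 ⟨hp, hpA l⟩
      rcases sigma_zero hA' hp hpA h1 with h | h
      · obtain ⟨n, hn⟩ := h p hpm 0 le_rfl
        exact absurd hn (hpA n)
      · rw [ZFSet.eq_empty]
        intro z hz
        have h2 : z ∈ E \ A l := by
          rw [h]
          exact hA' l hz
        exact (ZFSet.mem_sdiff.1 h2).2 hz
    | succ k =>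
      have h1 : SigmaV V E A (k + 1) 0 (A l) := hb _ ⟨0, Or.inl (sigma_A hA' l)⟩
      rcases sigma_succ hA' hp hpA h1 with h | h
      · exact h
      · exact absurd (h ▸ hp : p ∈ A l) (hpA l)
  obtain ⟨S, hS, hSc⟩ := ha _ (countOrd_num 0)
  have hno : ∀ T : ZFSet.{0}, Sm A 0 T → T = ∅ := by
    intro T hTs
    rw [ZFSet.eq_empty]
    intro z hz
    obtain ⟨n, hn⟩ := hTs z hz 0 le_rfl
    rw [hempty n] at hn
    exact ZFSet.notMem_empty _ hn
  rcases sm_or hA' hS with h | h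
  · have h1 : S = A 0 := by rw [hno S h, hempty 0]
    rw [h1] at hSc
    exact hSc (ClassV.gen 0)
  · have h1 := hno _ h
    have h2 : S = E \ A 0 := by
      ext z
      rw [hempty 0, ZFSet.mem_sdiff]
      constructor
      · intro hz
        exact ⟨borel_sub hA' hS hz, ZFSet.notMem_empty z⟩
      · rintro ⟨hz, _⟩
        by_contra h3
        have h4 : z ∈ Ep E 0 \ S := ZFSet.mem_sdiff.2 ⟨hz, h3⟩
        rw [h1] at h4
        exact ZFSet.notMem_empty z h4
    rw [h2] at hSc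
    exact hSc (ClassV.gen_compl 0)

end Pool.LCM
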