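import Pool.Agent.Lib.MP_1c8600_m.Gen

/-!
# MP_1c8600_lc, model side, row M6: the `σ`-alternative refutes property (a)
-/

set_option autoImplicit false
set_option linter.unusedVariables false
set_option linter.style.haveILetI false

open Set

namespace Pool.LCM

open Pool.MP_3ade05_lc Pool.PC Pool.MP_1c8600_lc
open Pool.UT hiding pw

variable {V : Set ZFSet.{0}} {E : ZFSet.{0}} {A : ℕ → ZFSet.{0}} {m n : ℕ}

/-- The point `x` is in the `G_δ` set with the code `d`. -/
def GdZ (s d x : ZFSet.{0}) : Prop :=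
  ∀ n : ℕ, ∃ q : ℕ, el d (Nat.pair n q) ∧ IsStr q ∧
    ∀ i : ℕ, (Stt q i → x ∈ ap s (num i)) ∧ (Stf q i → x ∉ ap s (num i))

/-- Row M6. -/
lemma GdZ_iff {b s x : ZFSet.{0}} (hb : ∀ n, (ZFSet.pair (num n) x ∈ b ↔ x ∈ ap s (num n)))
    (c : ℕ → Bool) : Pool.LV.Gd c (hxZ b x) ↔ GdZ s (nset {n | c n = true}) x := by
  have hv : ∀ i, (hxZ b x i = true ↔ x ∈ ap s (num i)) := fun i => by
    unfold hxZ
    rw [@decide_eq_true_iff _ (Classical.propDecidable _), hb]
  have hcode : ∀ (n : ℕ) (l : List Bool), el (nset {n | c n = true})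
      (Nat.pair n (Encodable.encode l)) ↔ c (Encodable.encode (n, l)) = true := by
    intro n l
    rw [el_nset]
    rfl
  constructor
  · intro h n
    obtain ⟨l, h1, h2⟩ := h n
    have h3 : ∀ i a, l[i]? = some a → hxZ b x i = a := by
      intro i a hi
      obtain ⟨h4, h5⟩ := List.getElem?_eq_some_iff.1 hi
      rw [← h5]
      have h6 : l[i]'h4 = (Pool.LV.pre (hxZ b x) l.length)[i]'(by simpa using h4) := by
        congr 1
      rw [h6, Pool.LV.getElem_pre]
    refine ⟨Encodable.encode l, (hcode n l).2 h1, ⟨l, rfl⟩, fun i => ⟨?_, ?_⟩⟩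
    · rintro ⟨l', h4, h5⟩
      obtain rfl := Encodable.encode_injective h4
      exact (hv i).1 (h3 i true h5)
    · rintro ⟨l', h4, h5⟩ hx
      obtain rfl := Encodable.encode_injective h4
      have h6 := h3 i false h5
      rw [(hv i).2 hx] at h6
      exact absurd h6 (by decide)
  · intro h n
    obtain ⟨q, h1, ⟨l, rfl⟩, h2⟩ := h n
    refine ⟨l, (hcode n l).1 h1, ?_⟩
    apply List.ext_getElem
    · simp
    · intro i h3 h4
      rw [Pool.LV.getElem_pre]
      cases h5 : l[i] with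
      | true =>
        exact ((hv i).2 ((h2 i).1 ⟨l, rfl, List.getElem?_eq_some_iff.2 ⟨h3, h5⟩⟩)).symm
      | false =>
        have h6 := (h2 i).2 ⟨l, rfl, List.getElem?_eq_some_iff.2 ⟨h3, h5⟩⟩
        rw [← hv i] at h6
        cases h7 : hxZ b x i with
        | true => exact absurd h7 h6
        | false => rfl

/-- The sequence `A 0`, `E \ A 0`, `E \ A 0`, … . -/
lemma M6a_cover [hT : TZ V] (hE : E ∈ V) (hA : SeqIn V A) (hA' : ∀ n, A n ⊆ E) :
    ∃ S : ℕ → ZFSet.{0}, SeqIn V S ∧ (∀ n, ClassV V E A ∅ (S n)) ∧ uni S = E := by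
  refine ⟨fun n => if n = 0 then A 0 else E \ A 0, ?_, ?_, ?_⟩
  · refine seq_const (fun n => ?_) 1 (fun n hn => ?_)
    · split
      · exact A_memV hA 0
      · exact diff_mem hE (A_memV hA 0)
    · rw [if_neg (by omega), if_neg (by omega)]
  · intro n
    dsimp only
    split
    · exact ClassV.gen 0
    · exact ClassV.gen_compl 0
  · ext x
    rw [mem_uni]
    constructor
    · rintro ⟨n, hn⟩
      split at hn
      · exact hA' 0 hn
      · exact (ZFSet.mem_sdiff.1 hn).1
    · intro hx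
      by_cases h : x ∈ A 0
      · exact ⟨0, by rw [if_pos rfl]; exact h⟩
      · exact ⟨1, by rw [if_neg one_ne_zero]; exact ZFSet.mem_sdiff.2 ⟨hx, h⟩⟩

lemma M6a_zero_mem_one : (∅ : ZFSet.{0}) ∈ num 1 := mem_num.2 ⟨0, Nat.zero_lt_one, rfl⟩

/-- Row M6: the classes of small sets. -/
lemma class_empty [hT : TZ V] (hE : E ∈ V) (hA : SeqIn V A) (hA' : ∀ n, A n ⊆ E) :
    ClassV V E A (num 1) ∅ := by
  obtain ⟨S, h1, h2, h3⟩ := M6a_cover (V := V) hE hA hA'
  have h4 : (∅ : ZFSet.{0}) = E \ uni S := by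
    rw [h3]
    ext x
    rw [ZFSet.mem_sdiff]
    constructor
    · intro h
      exact absurd h (ZFSet.notMem_empty x)
    · rintro ⟨h, h'⟩
      exact absurd h h'
  rw [h4]
  exact ClassV.union_compl (num 1) S (fun _ => ∅) h1 (fun _ => M6a_zero_mem_one) h2

/-- Row M6: a basic open set is in the class `𝓒_1`. -/
lemma class_basic [hT : TZ V] [hR : RV V] (hE : E ∈ V) (hA : SeqIn V A) (hA' : ∀ n, A n ⊆ E)
    {s : ZFSet.{0}} (hs : s ∈ V) (hsA : ∀ n, ap s (num n) = A n) {q : ℕ} (hq : IsStr q) :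
    ClassV V E A (num 1) (ZFSet.sep (fun x => ∀ i : ℕ, (Stt q i → x ∈ ap s (num i)) ∧
      (Stf q i → x ∉ ap s (num i))) E) := by
  obtain ⟨l, rfl⟩ := hq
  have hstt : ∀ i, Stt (Encodable.encode l) i ↔ l[i]? = some true := by
    intro i
    constructor
    · rintro ⟨l', h4, h5⟩
      obtain rfl := Encodable.encode_injective h4
      exact h5
    · exact fun h => ⟨l, rfl, h⟩
  have hstf : ∀ i, Stf (Encodable.encode l) i ↔ l[i]? = some false := by
    intro i
    constructor
    · rintro ⟨l', h4, h5⟩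
      obtain rfl := Encodable.encode_injective h4
      exact h5
    · exact fun h => ⟨l, rfl, h⟩
  simp only [hstt, hstf, hsA]
  rcases Nat.eq_zero_or_pos l.length with h0 | h0
  · obtain ⟨S, h1, h2, h3⟩ := M6a_cover (V := V) hE hA hA'
    have h4 : ZFSet.sep (fun x => ∀ i : ℕ, (l[i]? = some true → x ∈ A i) ∧
        (l[i]? = some false → x ∉ A i)) E = uni S := by
      rw [h3]
      ext x
      rw [ZFSet.mem_sep]
      refine ⟨fun h => h.1, fun h => ⟨h, fun i => ?_⟩⟩
      have h5 : l[i]? = none := List.getElem?_eq_none (by omega)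
      rw [h5]
      simp
    rw [h4]
    exact ClassV.union (num 1) S (fun _ => ∅) h1 (fun _ => M6a_zero_mem_one) h2
  · let T : ℕ → ZFSet.{0} := fun i => if l[i]? = some true then E \ A i else A i
    let S : ℕ → ZFSet.{0} := fun n => T (min n (l.length - 1))
    have h4 : ZFSet.sep (fun x => ∀ i : ℕ, (l[i]? = some true → x ∈ A i) ∧
        (l[i]? = some false → x ∉ A i)) E = E \ uni S := by
      ext x
      rw [ZFSet.mem_sep, ZFSet.mem_sdiff, mem_uni]
      refine and_congr_right fun hx => ⟨fun h => ?_, fun h i => ?_⟩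
      · rintro ⟨n, hn⟩
        change x ∈ T (min n (l.length - 1)) at hn
        have hi : min n (l.length - 1) < l.length := by omega
        revert hn hi
        generalize min n (l.length - 1) = i
        intro hn hi
        change x ∈ (if l[i]? = some true then E \ A i else A i) at hn
        have h5 : l[i]? = some l[i] := List.getElem?_eq_getElem hi
        cases h6 : l[i] with
        | true =>
          rw [h6] at h5
          rw [if_pos h5] at hn
          exact (ZFSet.mem_sdiff.1 hn).2 ((h i).1 h5)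
        | false =>
          rw [h6] at h5
          rw [if_neg (by rw [h5]; decide)] at hn
          exact (h i).2 h5 hn
      · refine ⟨fun h5 => ?_, fun h5 h6 => ?_⟩
        · by_contra h6
          refine h ⟨i, ?_⟩
          have hi := (List.getElem?_eq_some_iff.1 h5).1
          change x ∈ T (min i (l.length - 1))
          rw [show min i (l.length - 1) = i by omega]
          change x ∈ (if l[i]? = some true then E \ A i else A i)
          rw [if_pos h5]
          exact ZFSet.mem_sdiff.2 ⟨hx, h6⟩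
        · refine h ⟨i, ?_⟩
          have hi := (List.getElem?_eq_some_iff.1 h5).1
          change x ∈ T (min i (l.length - 1))
          rw [show min i (l.length - 1) = i by omega]
          change x ∈ (if l[i]? = some true then E \ A i else A i)
          rw [if_neg (by rw [h5]; decide)]
          exact h6
    rw [h4]
    refine ClassV.union_compl (num 1) S (fun _ => ∅) ?_ (fun _ => M6a_zero_mem_one) ?_
    · refine seq_const (fun n => ?_) (l.length - 1) (fun n hn => ?_)
      · change (if l[min n (l.length - 1)]? = some true then E \ A (min n (l.length - 1)) else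
          A (min n (l.length - 1))) ∈ V
        split
        · exact diff_mem hE (A_memV hA _)
        · exact A_memV hA _
      · change T (min n (l.length - 1)) = T (min (l.length - 1) (l.length - 1))
        rw [min_eq_right hn, min_self]
    · intro n
      change ClassV V E A ∅ (if l[min n (l.length - 1)]? = some true then
        E \ A (min n (l.length - 1)) else A (min n (l.length - 1)))
      split
      · exact ClassV.gen_compl _
      · exact ClassV.gen _

/-- Row M6: the complement of a `G_δ` set is in the class `𝓒_3`. -/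
lemma class_gd [hT : TZ V] [hR : RV V] (hE : E ∈ V) (hA : SeqIn V A) (hA' : ∀ n, A n ⊆ E)
    {s : ZFSet.{0}} (hs : s ∈ V) (hsA : ∀ n, ap s (num n) = A n) {d : ZFSet.{0}} (hd : d ∈ V) :
    ClassV V E A (num 3) (ZFSet.sep (fun x => ¬ GdZ s d x) E) := by
  haveI : InE V E := ⟨hE⟩
  haveI : InE V s := ⟨hs⟩
  haveI : InE V d := ⟨hd⟩
  -- the basic open sets
  have hSd : ∀ n : ℕ, DfT V (fun v : Fin 1 → ZFSet.{0} => ZFSet.sep (fun x =>
      el d (Nat.pair n (nat (v 0))) ∧ IsStr (nat (v 0)) ∧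
        ∀ i : ℕ, (Stt (nat (v 0)) i → x ∈ ap s (num i)) ∧
          (Stf (nat (v 0)) i → x ∉ ap s (num i))) E) := fun n => inferInstance
  set S : ℕ → ℕ → ZFSet.{0} := fun n q => ZFSet.sep (fun x =>
      el d (Nat.pair n q) ∧ IsStr q ∧
        ∀ i : ℕ, (Stt q i → x ∈ ap s (num i)) ∧ (Stf q i → x ∉ ap s (num i))) E with hS
  have hS1 : ∀ n, SeqIn V (S n) := by
    intro n
    have h1 := seq_of_dft (V := V) (fun y => ZFSet.sep (fun x =>
      el d (Nat.pair n (nat y)) ∧ IsStr (nat y) ∧
        ∀ i : ℕ, (Stt (nat y) i → x ∈ ap s (num i)) ∧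
          (Stf (nat y) i → x ∉ ap s (num i))) E) (hF := hSd n)
    simpa only [nat_num] using h1
  have hS2 : ∀ n q, ClassV V E A (num 1) (S n q) := by
    intro n q
    by_cases h : el d (Nat.pair n q) ∧ IsStr q
    · have h1 := class_basic hE hA hA' hs hsA h.2
      have h2 : S n q = ZFSet.sep (fun x => ∀ i : ℕ, (Stt q i → x ∈ ap s (num i)) ∧
          (Stf q i → x ∉ ap s (num i))) E := by
        ext x
        rw [hS, ZFSet.mem_sep, ZFSet.mem_sep]
        exact ⟨fun h3 => ⟨h3.1, h3.2.2.2⟩, fun h3 => ⟨h3.1, h.1, h.2, h3.2⟩⟩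
      rw [h2]
      exact h1
    · have h2 : S n q = ∅ := by
        ext x
        rw [hS, ZFSet.mem_sep]
        constructor
        · rintro ⟨_, h3, h4, _⟩
          exact absurd ⟨h3, h4⟩ h
        · intro hx
          exact absurd hx (ZFSet.notMem_empty x)
      rw [h2]
      exact class_empty hE hA hA'
  have hW1 : ∀ n, ClassV V E A (num 2) (E \ uni (S n)) := fun n =>
    ClassV.union_compl (num 2) (S n) (fun _ => num 1) (hS1 n)
      (fun _ => mem_num.2 ⟨1, by norm_num, rfl⟩) (hS2 n)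
  have hWd : DfT V (fun v : Fin 1 → ZFSet.{0} => ZFSet.sep (fun x => ∀ q : ℕ,
      ¬ (el d (Nat.pair (nat (v 0)) q) ∧ IsStr q ∧
        ∀ i : ℕ, (Stt q i → x ∈ ap s (num i)) ∧ (Stf q i → x ∉ ap s (num i)))) E) :=
    inferInstance
  have hW2 : ∀ n, E \ uni (S n) = ZFSet.sep (fun x => ∀ q : ℕ,
      ¬ (el d (Nat.pair n q) ∧ IsStr q ∧
        ∀ i : ℕ, (Stt q i → x ∈ ap s (num i)) ∧ (Stf q i → x ∉ ap s (num i)))) E := by
    intro n
    ext x
    rw [ZFSet.mem_sdiff, mem_uni, ZFSet.mem_sep]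
    constructor
    · rintro ⟨hx, h1⟩
      refine ⟨hx, fun q hq => h1 ⟨q, ?_⟩⟩
      rw [hS, ZFSet.mem_sep]
      exact ⟨hx, hq⟩
    · rintro ⟨hx, h1⟩
      refine ⟨hx, ?_⟩
      rintro ⟨q, hq⟩
      rw [hS, ZFSet.mem_sep] at hq
      exact h1 q hq.2
  have hW3 : SeqIn V (fun n => E \ uni (S n)) := by
    have h1 := seq_of_dft (V := V) (fun y => ZFSet.sep (fun x => ∀ q : ℕ,
      ¬ (el d (Nat.pair (nat y) q) ∧ IsStr q ∧
        ∀ i : ℕ, (Stt q i → x ∈ ap s (num i)) ∧ (Stf q i → x ∉ ap s (num i)))) E) (hF := hWd)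
    simp only [nat_num] at h1
    simpa only [hW2] using h1
  have h3 := ClassV.union (V := V) (E := E) (A := A) (num 3) (fun n => E \ uni (S n))
    (fun _ => num 2) hW3 (fun _ => mem_num.2 ⟨2, by norm_num, rfl⟩) hW1
  have h4 : ZFSet.sep (fun x => ¬ GdZ s d x) E = uni (fun n => E \ uni (S n)) := by
    ext x
    rw [ZFSet.mem_sep, mem_uni]
    unfold GdZ
    simp only [hW2, ZFSet.mem_sep]
    push Not
    constructor
    · rintro ⟨hx, n, hn⟩
      exact ⟨n, hx, hn⟩
    · rintro ⟨n, hx, hn⟩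
      exact ⟨hx, n, hn⟩
  rw [h4]
  exact h3

/-- Row M6b: `GdZ` depends only on the elements of the code. -/
lemma M6b_congr {s d d' x : ZFSet.{0}} (h : ∀ n, el d n ↔ el d' n) : GdZ s d x ↔ GdZ s d' x := by
  unfold GdZ
  simp only [h]

/-- Row M6b: the code of the complement of `A j`. -/
lemma M6b_rect {s x : ZFSet.{0}} (j : ℕ) :
    GdZ s (nset {p | Stf p.unpair.2 j}) x ↔ x ∉ ap s (num j) := by
  classical
  constructor
  · intro h
    obtain ⟨q, hq, _, h1⟩ := h 0
    rw [el_nset] at hq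
    have h2 : Stf q j := by simpa using hq
    exact (h1 j).2 h2
  · intro hx n
    set l : List Bool := List.ofFn (fun i : Fin (j + 1) => decide (x ∈ ap s (num i))) with hl
    have hl1 : ∀ i (b : Bool), l[i]? = some b ↔ i < j + 1 ∧ b = decide (x ∈ ap s (num i)) := by
      intro i b
      rw [hl, List.getElem?_ofFn]
      by_cases hi : i < j + 1
      · simp [hi, eq_comm]
      · simp [hi]
    refine ⟨Encodable.encode l, ?_, ⟨l, rfl⟩, fun i => ⟨?_, ?_⟩⟩
    · rw [el_nset]
      show Stf (Nat.pair n (Encodable.encode l)).unpair.2 j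
      rw [Nat.unpair_pair]
      exact ⟨l, rfl, (hl1 j false).2 ⟨by omega, by simp [hx]⟩⟩
    · rintro ⟨l', h1, h2⟩
      rw [← Encodable.encode_injective h1] at h2
      have h3 := ((hl1 i true).1 h2).2
      simpa using h3.symm
    · rintro ⟨l', h1, h2⟩
      rw [← Encodable.encode_injective h1] at h2
      have h3 := ((hl1 i false).1 h2).2
      simpa using h3.symm

/-- Row M6: the `σ`-alternative refutes (a): with `borel_codes`, `m = 0`, `Good := True`,
`Φ t x := ¬ GdZ s t x`, and `class_gd`. -/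
theorem not_propA [hT : TC V] [hR : RV V] (hE : E ∈ V) (hA : SeqIn V A) (hA' : ∀ n, A n ⊆ E)
    {s : ZFSet.{0}} (hs : s ∈ V) (hsA : ∀ n, ap s (num n) = A n)
    (hσ : ∀ c ∈ V, c ⊆ ZFSet.omega → ∃ d ∈ V, d ⊆ ZFSet.omega ∧
      ∀ x ∈ E, (GdZ s c x ↔ ¬ GdZ s d x)) : ¬ PropAV V E A := by
  intro hP
  haveI : InE V E := ⟨hE⟩
  haveI : InE V s := ⟨hs⟩
  obtain ⟨S, hS, hSn⟩ := hP (num 3) (countOrd_num 3)
  have hΦ : Df V (fun v : Fin 2 → ZFSet.{0} => ¬ GdZ s (v 0) (v 1)) := by
    have h : Df V (fun v : Fin 2 → ZFSet.{0} => ¬ ∀ n : ℕ, ∃ q : ℕ, el (v 0) (Nat.pair n q) ∧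
      IsStr q ∧ ∀ i : ℕ, (Stt q i → v 1 ∈ ap s (num i)) ∧ (Stf q i → v 1 ∉ ap s (num i))) :=
      inferInstance
    exact h
  obtain ⟨t, ht, _, _, htS⟩ := borel_codes hE hA hA' 0 (fun _ => True)
    (fun t x => ¬ GdZ s t x) (hΦ := hΦ) (by
      intro k
      have h1 : nset {p : ℕ | Stf p.unpair.2 (k 0)} ∈ V :=
        nset_memV (fun p => Stf p.unpair.2 (k 0))
      refine ⟨_, h1, fun z hz => ?_, trivial, fun z hz => ?_⟩
      · obtain ⟨n, _, rfl⟩ := mem_nset.1 hz
        exact num_mem_omega n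
      · rw [M6b_rect, hsA]
        exact not_not.symm) (by
      intro t ht _
      haveI : InE V t := ⟨ht⟩
      have h1 : nset {p : ℕ | el t p} ∈ V := nset_memV (fun p => el t p)
      obtain ⟨d, hd, hdω, h2⟩ := hσ _ h1 (fun z hz => by
        obtain ⟨n, _, rfl⟩ := mem_nset.1 hz
        exact num_mem_omega n)
      refine ⟨d, hd, hdω, trivial, fun z hz => ?_⟩
      have h3 : GdZ s (nset {p : ℕ | el t p}) z ↔ GdZ s t z := M6b_congr fun n => el_nset
      rw [← h3, h2 z hz, not_not]) (by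
      intro T hT' _
      haveI : InE V T := ⟨hT'⟩
      have h1 : nset {p : ℕ | el (sec T p.unpair.1.unpair.1)
          (Nat.pair p.unpair.1.unpair.2 p.unpair.2)} ∈ V :=
        nset_memV (fun p => el (sec T p.unpair.1.unpair.1)
          (Nat.pair p.unpair.1.unpair.2 p.unpair.2))
      refine ⟨_, h1, fun z hz => ?_, trivial, fun z hz => ?_⟩
      · obtain ⟨n, _, rfl⟩ := mem_nset.1 hz
        exact num_mem_omega n
      · rw [← not_forall, not_iff_not]
        unfold GdZ
        simp only [el_nset, Set.mem_ofPred_eq, Nat.unpair_pair]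
        constructor
        · intro h2 k n
          obtain ⟨q, h3, h4⟩ := h2 (Nat.pair k n)
          rw [Nat.unpair_pair] at h3
          exact ⟨q, h3, h4⟩
        · intro h2 m
          obtain ⟨q, h3, h4⟩ := h2 m.unpair.1 m.unpair.2
          exact ⟨q, h3, h4⟩) hS
  apply hSn
  have h1 : S = ZFSet.sep (fun x => ¬ GdZ s t x) E := by
    ext x
    rw [ZFSet.mem_sep]
    constructor
    · intro hx
      have hxE : x ∈ E := borel_sub hA' hS hx
      exact ⟨hxE, (htS x hxE).1 hx⟩
    · rintro ⟨hxE, hx⟩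
      exact (htS x hxE).2 hx
  rw [h1]
  exact class_gd hE hA hA' hs hsA ht

end Pool.LCM
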