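import Pool.Agent.Lib.MP_1c8600_m.FF
import Pool.Agent.Lib.MP_1c8600_m.Dg
import Pool.Agent.Lib.MP_1c8600_m.Sg
import Pool.Agent.Lib.MP_1c8600_m.Nu

/-!
# MP_1c8600_lc, model side, row M8: H* implies the negative answer
-/

set_option autoImplicit false
set_option linter.unusedVariables false
set_option linter.style.haveILetI false

open Set

namespace Pool.LCM

open Pool.MP_3ade05_lc Pool.PC Pool.MP_1c8600_lc
open Pool.UT hiding pw

/-- H* implies the negative answer, in the model `V`. -/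
theorem negative_of_hstar_aux {V : Set ZFSet.{0}} (hT : ∀ x ∈ V, ∀ y ∈ x, y ∈ V)
    (hV : ZFCModel V) (hR : RV V) (h : HStar V) : Negative V := by
  haveI : TC V := tc_of hT hV
  intro E hE A hA hA' ha k
  by_cases hU : ∀ x ∈ E, ∃ n, x ∈ A n
  swap
  · push Not at hU
    obtain ⟨p, hp, hpA⟩ := hU
    exact not_of_union hE hA hA' hp hpA ha k
  obtain ⟨s, hs, hsf, hsA⟩ := seq_ap hA
  haveI : InE V s := ⟨hs⟩
  haveI : InE V E := ⟨hE⟩
  -- the set of the pairs `(n, x)`, `x ∈ A n`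
  set b : ZFSet.{0} := ZFSet.sep (fun p => sndZ p ∈ ap s (fstZ p)) (prd ZFSet.omega E) with hb
  have hbV : b ∈ V := mem_of (E := V) (ZFSet.sep (fun p => sndZ p ∈ ap s (fstZ p))
    (prd ZFSet.omega E))
  have hbx : ∀ x ∈ E, ∀ n, (ZFSet.pair (num n) x ∈ b ↔ x ∈ ap s (num n)) := by
    intro x hx n
    rw [hb, ZFSet.mem_sep, pair_mem_prd, fstZ_pair, sndZ_pair]
    exact ⟨fun h => h.2, fun h => ⟨⟨num_mem_omega n, hx⟩, h⟩⟩
  rcases h E hE b hbV with h1 | ⟨c, hc, h1⟩
  · refine absurd ha (not_propA hE hA hA' hs hsA fun c hc hcω => ?_)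
    classical
    have hcr : nset {n | (fun n => decide (el c n)) n = true} = c := by
      simpa using nset_el hcω
    obtain ⟨d, hd, h2⟩ := h1 (fun n => decide (el c n)) (by
      show nset {n | (fun n => decide (el c n)) n = true} ∈ V
      rw [hcr]
      exact hc)
    refine ⟨nset {n | d n = true}, hd, fun z hz => ?_, fun x hx => ?_⟩
    · obtain ⟨n, _, rfl⟩ := mem_nset.1 hz
      exact num_mem_omega n
    · have h3 := h2 x hx
      rw [GdZ_iff (hbx x hx), GdZ_iff (hbx x hx), hcr] at h3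
      exact h3
  · haveI : InE V (nset {n | c n = true}) := ⟨hc⟩
    refine not_propB hE hA hA' hU (FF (nset {n | c n = true}) s) (fun m i hi =>
      BoR.ff hE hA hA' hU hs hsA hc hi) (fun x hx => ?_) (fun g hg => ?_) k
    · haveI : InE V x := ⟨hT E hE x hx⟩
      exact mem_of (E := V) (FF (nset {n | c n = true}) s x)
    · classical
      haveI : InE V g := ⟨hg⟩
      obtain ⟨x, hx, h2⟩ := h1 (fun n => decide (el g n)) (by
        show nset {n | (fun n => decide (el g n)) n = true} ∈ V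
        simpa using (mem_of (E := V) (nset {n | el g n})))
      refine ⟨x, hx, fun n => ?_⟩
      rw [FF_eq (hbx x hx) h2]
      simp

theorem negative_of_hstar : ∃ 𝓡 : Set (ℕ → ℕ → Prop), 𝓡.Countable ∧ ∀ V : Set ZFSet.{0},
    (∀ x ∈ V, ∀ y ∈ x, y ∈ V) → ZFCModel V → (∀ r ∈ 𝓡, relZ r ∈ V) → HStar V → Negative V :=
  ⟨Set.range rel, Set.countable_range rel, fun V hT hV hR h =>
    negative_of_hstar_aux hT hV ⟨fun r => hR _ ⟨r, rfl⟩⟩ h⟩

end Pool.LCM
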