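import Pool.Agent.Lib.MP_1c8600_m.Rel

/-!
# MP_1c8600_lc, model side: sequences, pairs, coordinates, the real of a point of `E^(m+1)`
-/

set_option autoImplicit false
set_option linter.unusedVariables false
set_option linter.style.haveILetI false

open Set

namespace Pool.LCM

open Pool.MP_3ade05_lc Pool.PC Pool.MP_1c8600_lc
open Pool.UT hiding pw

variable {V : Set ZFSet.{0}} {n : ℕ}

/-! ### Sequences -/

lemma mem_uni {S : ℕ → ZFSet.{0}} {x : ZFSet.{0}} : x ∈ uni S ↔ ∃ n, x ∈ S n := by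
  unfold uni
  rw [ZFSet.mem_sUnion]
  constructor
  · rintro ⟨y, hy, hx⟩
    obtain ⟨n, rfl⟩ := ZFSet.mem_range.1 hy
    exact ⟨n, hx⟩
  · rintro ⟨n, hn⟩
    exact ⟨S n, ZFSet.mem_range.2 ⟨n, rfl⟩, hn⟩

/-- A sequence of the model, as a function of the model. -/
lemma seq_ap {S : ℕ → ZFSet.{0}} (h : SeqIn V S) :
    ∃ s ∈ V, FunOn s ZFSet.omega ∧ ∀ n, ap s (num n) = S n := by
  obtain ⟨s, hs, h⟩ := h
  have hp : ∀ n y, ZFSet.pair (num n) y ∈ s ↔ y = S n := by
    intro n y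
    rw [h]
    constructor
    · rintro ⟨m, he⟩
      obtain ⟨h1, h2⟩ := ZFSet.pair_injective he
      rw [num_inj.1 h1, h2]
    · rintro rfl
      exact ⟨n, rfl⟩
  refine ⟨s, hs, ⟨fun z hz => ?_, fun x hx => ?_⟩, fun n => ap_eq_of ((hp n _).2 rfl)
    fun y hy => (hp n y).1 hy⟩
  · obtain ⟨n, rfl⟩ := (h z).1 hz
    exact ⟨num n, num_mem_omega n, _, rfl⟩
  · obtain ⟨n, rfl⟩ := mem_omega_iff.1 hx
    exact ⟨S n, (hp n _).2 rfl, fun y hy => (hp n y).1 hy⟩

/-- A sequence given by a function of the model is a sequence of the model. -/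
lemma seq_of_ap {s : ZFSet.{0}} [hT : TZ V] (hs : s ∈ V) (hf : FunOn s ZFSet.omega) :
    SeqIn V (fun n => ap s (num n)) := by
  refine ⟨s, hs, fun z => ?_⟩
  constructor
  · intro hz
    obtain ⟨x, hx, y, rfl⟩ := hf.1 z hz
    obtain ⟨n, rfl⟩ := mem_omega_iff.1 hx
    refine ⟨n, ?_⟩
    show _ = ZFSet.pair (num n) (ap s (num n))
    rw [(FunOn.ap_eq hf hx).1 hz]
  · rintro ⟨n, rfl⟩
    exact FunOn.ap_mem hf (num_mem_omega n)

/-- A definable sequence is a sequence of the model. -/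
lemma seq_of_dft [hT : TZ V] (F : ZFSet.{0} → ZFSet.{0})
    [hF : DfT V (fun v : Fin 1 → ZFSet.{0} => F (v 0))] : SeqIn V (fun n => F (num n)) := by
  have h1 : mkF F ZFSet.omega ∈ V := mem_of (E := V) (mkF F ZFSet.omega)
    (h := DfT.instMkF (F := fun x (_ : Fin 0 → ZFSet.{0}) => F x) (t := fun _ => ZFSet.omega)
      (hF := hF))
  have h2 := seq_of_ap h1 (FunOn_mkF F ZFSet.omega)
  have h3 : (fun n => ap (mkF F ZFSet.omega) (num n)) = fun n => F (num n) := by
    funext n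
    exact ap_mkF (num_mem_omega n)
  rwa [h3] at h2

/-- An eventually constant sequence of elements of the model is a sequence of the model. -/
lemma seq_const [hT : TZ V] {S : ℕ → ZFSet.{0}} (hS : ∀ n, S n ∈ V) (N : ℕ)
    (h : ∀ n ≥ N, S n = S N) : SeqIn V S := by
  have hall : ∀ n, SeqIn V (fun k => if k < n then S k else S N) := by
    intro n
    induction n with
    | zero =>
      haveI : InE V (S N) := ⟨hS N⟩
      have h1 := seq_of_dft (V := V) (fun _ => S N)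
      simpa using h1
    | succ n ih =>
      obtain ⟨s, hs, hsf, hsa⟩ := seq_ap ih
      haveI : InE V s := ⟨hs⟩
      haveI : InE V (S n) := ⟨hS n⟩
      have h1 : DfT V (fun v : Fin 1 → ZFSet.{0} => ZFSet.sep (fun x =>
        (v 0 = num n → x ∈ S n) ∧ (v 0 ≠ num n → x ∈ ap s (v 0))) (S n ∪ ap s (v 0))) :=
        inferInstance
      have h2 := seq_of_dft (V := V) (fun y => ZFSet.sep (fun x =>
        (y = num n → x ∈ S n) ∧ (y ≠ num n → x ∈ ap s y)) (S n ∪ ap s y))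
      have h3 : (fun k => ZFSet.sep (fun x =>
        (num k = num n → x ∈ S n) ∧ (num k ≠ num n → x ∈ ap s (num k))) (S n ∪ ap s (num k))) =
          fun k => if k < n + 1 then S k else S N := by
        funext k
        ext x
        rw [ZFSet.mem_sep, ZFSet.mem_union, hsa, Ne, num_inj]
        by_cases hk : k = n
        · subst hk
          simp only [forall_const, not_true_eq_false, false_imp_iff, and_true, lt_add_iff_pos_right,
            Nat.lt_one_iff, if_true]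
          exact ⟨fun h => h.2, fun h => ⟨Or.inl h, h⟩⟩
        · by_cases hk2 : k < n
          · rw [if_pos hk2, if_pos (by omega)]
            simp only [hk, false_imp_iff, true_and, not_false_eq_true, forall_const]
            exact ⟨fun h => h.2, fun h => ⟨Or.inr h, h⟩⟩
          · rw [if_neg hk2, if_neg (by omega)]
            simp only [hk, false_imp_iff, true_and, not_false_eq_true, forall_const]
            exact ⟨fun h => h.2, fun h => ⟨Or.inr h, h⟩⟩
      rw [← h3]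
      exact h2
  have h4 := hall N
  have h5 : (fun k => if k < N then S k else S N) = S := by
    funext k
    by_cases hk : k < N
    · rw [if_pos hk]
    · rw [if_neg hk, h k (by omega)]
  rwa [h5] at h4

lemma sub_E {E : ZFSet.{0}} {S : ℕ → ZFSet.{0}} (h : ∀ n, S n ⊆ E) : uni S ⊆ E := by
  intro x hx
  obtain ⟨n, hn⟩ := mem_uni.1 hx
  exact h n hn

lemma uni_memV [hT : TZ V] {S : ℕ → ZFSet.{0}} (h : SeqIn V S) : uni S ∈ V := by
  obtain ⟨s, hs, hsf, hsa⟩ := seq_ap h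
  haveI : InE V s := ⟨hs⟩
  have h1 : ZFSet.sUnion (img (fun x => ap s x) ZFSet.omega) ∈ V :=
    mem_of (E := V) (ZFSet.sUnion (img (fun x => ap s x) ZFSet.omega))
  have h2 : uni S = ZFSet.sUnion (img (fun x => ap s x) ZFSet.omega) := by
    ext x
    rw [mem_uni, ZFSet.mem_sUnion]
    constructor
    · rintro ⟨n, hn⟩
      refine ⟨S n, mem_img.2 ⟨num n, num_mem_omega n, (hsa n).symm⟩, hn⟩
    · rintro ⟨y, hy, hx⟩
      obtain ⟨w, hw, rfl⟩ := mem_img.1 hy
      obtain ⟨n, rfl⟩ := mem_omega_iff.1 hw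
      exact ⟨n, by rwa [hsa] at hx⟩
  rw [h2]
  exact h1

/-- A natural number is a countable ordinal of the model. -/
lemma countOrd_num [hT : TZ V] (k : ℕ) : CountOrd V (num k) := by
  refine ⟨num_memV k, ?_, mkF (fun x => x) ZFSet.omega,
    mem_of (E := V) (mkF (fun x => x) ZFSet.omega), FunOn_mkF _ _, fun x hx => ?_⟩
  · induction k with
    | zero => exact ZFSet.isOrdinal_empty
    | succ k ih => exact ZFSet.isOrdinal_succ ih
  · obtain ⟨j, _, rfl⟩ := mem_num.1 hx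
    exact ⟨num j, num_mem_omega j, pair_mem_mkF.2 ⟨num_mem_omega j, rfl⟩⟩

/-! ### Pairs -/

/-- The first coordinate of an ordered pair. -/
noncomputable def fstZ (z : ZFSet.{0}) : ZFSet.{0} :=
  ZFSet.sUnion (ZFSet.sep (fun x => ∃ y ∈ ZFSet.sUnion z, z = ZFSet.pair x y) (ZFSet.sUnion z))

/-- The second coordinate of an ordered pair. -/
noncomputable def sndZ (z : ZFSet.{0}) : ZFSet.{0} :=
  ZFSet.sUnion (ZFSet.sep (fun y => ∃ x ∈ ZFSet.sUnion z, z = ZFSet.pair x y) (ZFSet.sUnion z))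

lemma mem_sUnion_pair {x y w : ZFSet.{0}} :
    w ∈ ZFSet.sUnion (ZFSet.pair x y) ↔ w = x ∨ w = y := by
  unfold ZFSet.pair
  rw [ZFSet.mem_sUnion]
  simp only [ZFSet.mem_pair]
  constructor
  · rintro ⟨z, rfl | rfl, h⟩
    · exact Or.inl (ZFSet.mem_singleton.1 h)
    · exact ZFSet.mem_pair.1 h
  · rintro (rfl | rfl)
    · exact ⟨_, Or.inl rfl, ZFSet.mem_singleton.2 rfl⟩
    · exact ⟨_, Or.inr rfl, ZFSet.mem_pair.2 (Or.inr rfl)⟩

@[simp] lemma fstZ_pair (x y : ZFSet.{0}) : fstZ (ZFSet.pair x y) = x := by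
  unfold fstZ
  have h : ZFSet.sep (fun x' => ∃ y' ∈ ZFSet.sUnion (ZFSet.pair x y),
      ZFSet.pair x y = ZFSet.pair x' y') (ZFSet.sUnion (ZFSet.pair x y)) = {x} := by
    ext w
    rw [ZFSet.mem_sep, ZFSet.mem_singleton]
    constructor
    · rintro ⟨_, y', _, he⟩
      exact (ZFSet.pair_injective he).1.symm
    · rintro rfl
      exact ⟨mem_sUnion_pair.2 (Or.inl rfl), y, mem_sUnion_pair.2 (Or.inr rfl), rfl⟩
  rw [h, ZFSet.sUnion_singleton]

@[simp] lemma sndZ_pair (x y : ZFSet.{0}) : sndZ (ZFSet.pair x y) = y := by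
  unfold sndZ
  have h : ZFSet.sep (fun y' => ∃ x' ∈ ZFSet.sUnion (ZFSet.pair x y),
      ZFSet.pair x y = ZFSet.pair x' y') (ZFSet.sUnion (ZFSet.pair x y)) = {y} := by
    ext w
    rw [ZFSet.mem_sep, ZFSet.mem_singleton]
    constructor
    · rintro ⟨_, y', _, he⟩
      exact (ZFSet.pair_injective he).2.symm
    · rintro rfl
      exact ⟨mem_sUnion_pair.2 (Or.inr rfl), x, mem_sUnion_pair.2 (Or.inl rfl), rfl⟩
  rw [h, ZFSet.sUnion_singleton]

instance DfT.instFstZ [hT : TZ V] {s : (Fin n → ZFSet.{0}) → ZFSet.{0}} [hs : DfT V s] :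
    DfT V (fun v => fstZ (s v)) := by
  have hs1 := hs.up
  have hs2 := hs1.up
  have h : DfT V (fun v => ZFSet.sUnion (ZFSet.sep (fun x => ∃ y ∈ ZFSet.sUnion (s v),
    s v = ZFSet.pair x y) (ZFSet.sUnion (s v)))) := inferInstance
  exact h

instance DfT.instSndZ [hT : TZ V] {s : (Fin n → ZFSet.{0}) → ZFSet.{0}} [hs : DfT V s] :
    DfT V (fun v => sndZ (s v)) := by
  have hs1 := hs.up
  have hs2 := hs1.up
  have h : DfT V (fun v => ZFSet.sUnion (ZFSet.sep (fun y => ∃ x ∈ ZFSet.sUnion (s v),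
    s v = ZFSet.pair x y) (ZFSet.sUnion (s v)))) := inferInstance
  exact h

/-! ### The powers of `E` -/

/-- `E^(m+1)`. -/
noncomputable abbrev Ep (E : ZFSet.{0}) (m : ℕ) : ZFSet.{0} := Pool.MP_1c8600_lc.pw E m

lemma Ep_zero (E : ZFSet.{0}) : Ep E 0 = E := rfl

lemma mem_Ep_succ {E z : ZFSet.{0}} {m : ℕ} :
    z ∈ Ep E (m + 1) ↔ ∃ x ∈ Ep E m, ∃ y ∈ E, z = ZFSet.pair x y := ZFSet.mem_prod

lemma pair_mem_Ep {E x y : ZFSet.{0}} {m : ℕ} :
    ZFSet.pair x y ∈ Ep E (m + 1) ↔ x ∈ Ep E m ∧ y ∈ E := ZFSet.pair_mem_prod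

lemma prod_eq_prd (a b : ZFSet.{0}) : a.prod b = prd a b := by
  ext z
  rw [ZFSet.mem_prod, mem_prd]

lemma prod_memV [hT : TZ V] {a b : ZFSet.{0}} (ha : a ∈ V) (hb : b ∈ V) : a.prod b ∈ V := by
  haveI : InE V a := ⟨ha⟩
  haveI : InE V b := ⟨hb⟩
  rw [prod_eq_prd]
  exact mem_of (E := V) (prd a b)

lemma Ep_memV [hT : TZ V] {E : ZFSet.{0}} (hE : E ∈ V) (m : ℕ) : Ep E m ∈ V := by
  induction m with
  | zero => exact hE
  | succ m ih => exact prod_memV ih hE

/-- The coordinate number `i` of a point of `E^(m+1)`. -/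
noncomputable def cO (i : ℕ) : ℕ → ZFSet.{0} → ZFSet.{0}
  | 0, z => z
  | m + 1, z => if i = m + 1 then sndZ z else cO i m (fstZ z)

lemma cO_last (m : ℕ) (x y : ZFSet.{0}) : cO (m + 1) (m + 1) (ZFSet.pair x y) = y := by
  simp [cO]

lemma cO_pair {i m : ℕ} (h : i ≤ m) (x y : ZFSet.{0}) :
    cO i (m + 1) (ZFSet.pair x y) = cO i m x := by
  simp [cO, show i ≠ m + 1 by omega]

lemma dft_cO [hT : TZ V] {s : (Fin n → ZFSet.{0}) → ZFSet.{0}} (hs : DfT V s) (i m : ℕ) :
    DfT V (fun v => cO i m (s v)) := by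
  induction m generalizing s with
  | zero => exact hs
  | succ m ih =>
    by_cases h : i = m + 1
    · have h1 : (fun v => cO i (m + 1) (s v)) = fun v => sndZ (s v) := by
        funext v
        simp [cO, h]
      rw [h1]
      infer_instance
    · have h1 : (fun v => cO i (m + 1) (s v)) = fun v => cO i m (fstZ (s v)) := by
        funext v
        simp [cO, h]
      rw [h1]
      exact ih inferInstance

instance DfT.instCO [hT : TZ V] {s : (Fin n → ZFSet.{0}) → ZFSet.{0}} [hs : DfT V s] {i m : ℕ} :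
    DfT V (fun v => cO i m (s v)) := dft_cO hs i m

lemma cO_mem {E z : ZFSet.{0}} {i m : ℕ} (h : z ∈ Ep E m) : cO i m z ∈ E := by
  induction m generalizing z with
  | zero => exact h
  | succ m ih =>
    obtain ⟨x, hx, y, hy, rfl⟩ := mem_Ep_succ.1 h
    by_cases hi : i = m + 1
    · subst hi
      rw [cO_last]
      exact hy
    · have : cO i (m + 1) (ZFSet.pair x y) = cO i m x := by simp [cO, hi]
      rw [this]
      exact ih hx

lemma mem_rectZ {A : ℕ → ZFSet.{0}} {E : ZFSet.{0}} (hA : ∀ n, A n ⊆ E) {m : ℕ} {k : ℕ → ℕ}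
    {z : ZFSet.{0}} (hz : z ∈ Ep E m) :
    z ∈ rectZ A m k ↔ ∀ i ≤ m, cO i m z ∈ A (k i) := by
  induction m generalizing z with
  | zero =>
    constructor
    · intro h i hi
      obtain rfl : i = 0 := by omega
      exact h
    · intro h
      exact h 0 le_rfl
  | succ m ih =>
    obtain ⟨x, hx, y, hy, rfl⟩ := mem_Ep_succ.1 hz
    show ZFSet.pair x y ∈ (rectZ A m k).prod (A (k (m + 1))) ↔ _
    rw [ZFSet.pair_mem_prod, ih hx]
    constructor
    · rintro ⟨h1, h2⟩ i hi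
      rcases Nat.lt_or_eq_of_le hi with h3 | rfl
      · rw [cO_pair (by omega)]
        exact h1 i (by omega)
      · rw [cO_last]
        exact h2
    · intro h
      refine ⟨fun i hi => ?_, ?_⟩
      · have := h i (by omega)
        rwa [cO_pair hi] at this
      · have := h (m + 1) le_rfl
        rwa [cO_last] at this

lemma rectZ_sub {A : ℕ → ZFSet.{0}} {E : ZFSet.{0}} (hA : ∀ n, A n ⊆ E) (m : ℕ) (k : ℕ → ℕ) :
    rectZ A m k ⊆ Ep E m := by
  induction m with
  | zero => exact hA _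
  | succ m ih =>
    intro z hz
    obtain ⟨x, hx, y, hy, rfl⟩ := ZFSet.mem_prod.1 hz
    exact pair_mem_Ep.2 ⟨ih hx, hA _ hy⟩

lemma A_memV [hT : TZ V] {A : ℕ → ZFSet.{0}} (hA : SeqIn V A) (n : ℕ) : A n ∈ V := by
  obtain ⟨s, hs, hsf, hsa⟩ := seq_ap hA
  rw [← hsa]
  exact ap_memE hs (num_memV n)

lemma rectZ_memV [hT : TZ V] {A : ℕ → ZFSet.{0}} (hA : SeqIn V A) (m : ℕ) (k : ℕ → ℕ) :
    rectZ A m k ∈ V := by
  induction m with
  | zero => exact A_memV hA _
  | succ m ih => exact prod_memV ih (A_memV hA _)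

lemma borel_sub {E : ZFSet.{0}} {A : ℕ → ZFSet.{0}} (hA' : ∀ n, A n ⊆ E) {m : ℕ} {S : ZFSet.{0}}
    (h : BorelV V E A m S) : S ⊆ Ep E m := by
  induction h with
  | rect k => exact rectZ_sub hA' m k
  | compl S _ _ => exact fun z hz => (ZFSet.mem_sdiff.1 hz).1
  | union S hS _ ih => exact sub_E ih

lemma borel_memV [hT : TZ V] {E : ZFSet.{0}} (hE : E ∈ V) {A : ℕ → ZFSet.{0}} (hA : SeqIn V A)
    {m : ℕ} {S : ZFSet.{0}} (h : BorelV V E A m S) : S ∈ V := by
  induction h with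
  | rect k => exact rectZ_memV hA m k
  | compl S _ ih => exact diff_mem (Ep_memV hE m) ih
  | union S hS _ ih => exact uni_memV hS

/-! ### The real of a point -/

/-- The real of the point `z` of `E^(m+1)`: it contains the code of `(j, l)` if `j ≤ m` and
the coordinate number `j` of `z` is in `A l`; `s` is the sequence of the sets `A l`. -/
noncomputable def Hs (s : ZFSet.{0}) : ℕ → ZFSet.{0} → ZFSet.{0}
  | 0, z => nset {i | i.unpair.1 = 0 ∧ z ∈ ap s (num i.unpair.2)}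
  | m + 1, z => nset {i | el (Hs s m (fstZ z)) i ∨
      (i.unpair.1 = m + 1 ∧ sndZ z ∈ ap s (num i.unpair.2))}

lemma el_Hs {s : ZFSet.{0}} {A : ℕ → ZFSet.{0}} (hs : ∀ n, ap s (num n) = A n) {E : ZFSet.{0}}
    {m : ℕ} {z : ZFSet.{0}} (hz : z ∈ Ep E m) {i : ℕ} :
    el (Hs s m z) i ↔ i.unpair.1 ≤ m ∧ cO i.unpair.1 m z ∈ A i.unpair.2 := by
  induction m generalizing z with
  | zero =>
    unfold Hs
    rw [el_nset]
    show i.unpair.1 = 0 ∧ z ∈ ap s (num i.unpair.2) ↔ _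
    rw [hs]
    constructor
    · rintro ⟨h1, h2⟩
      exact ⟨by omega, h2⟩
    · rintro ⟨h1, h2⟩
      exact ⟨by omega, h2⟩
  | succ m ih =>
    obtain ⟨x, hx, y, hy, rfl⟩ := mem_Ep_succ.1 hz
    unfold Hs
    rw [el_nset]
    show el (Hs s m (fstZ (ZFSet.pair x y))) i ∨
      (i.unpair.1 = m + 1 ∧ sndZ (ZFSet.pair x y) ∈ ap s (num i.unpair.2)) ↔ _
    rw [fstZ_pair, sndZ_pair, hs, ih hx]
    constructor
    · rintro (⟨h1, h2⟩ | ⟨h1, h2⟩)
      · refine ⟨by omega, ?_⟩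
        rw [cO_pair h1]
        exact h2
      · rw [h1, cO_last]
        exact ⟨le_rfl, h2⟩
    · rintro ⟨h1, h2⟩
      rcases Nat.lt_or_eq_of_le h1 with h3 | h3
      · left
        rw [cO_pair (by omega)] at h2
        exact ⟨by omega, h2⟩
      · right
        rw [h3, cO_last] at h2
        exact ⟨h3, h2⟩

lemma dft_Hs [hT : TZ V] [hR : RV V] {s : ZFSet.{0}} (hs : s ∈ V) (m : ℕ) :
    ∀ {n : ℕ} {t : (Fin n → ZFSet.{0}) → ZFSet.{0}} (ht : DfT V t),
      DfT V (fun v => Hs s m (t v)) := by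
  haveI : InE V s := ⟨hs⟩
  induction m with
  | zero =>
    intro n t ht
    have h1 := ht.up
    have h : DfT V (fun v => nset {i | i.unpair.1 = 0 ∧ t v ∈ ap s (num i.unpair.2)}) :=
      inferInstance
    exact h
  | succ m ih =>
    intro n t ht
    have h1 := ht.up
    have h2 : DfT V (fun v : Fin (n + 1) → ZFSet.{0} => fstZ (t (fun i => v i.succ))) :=
      inferInstance
    have h3 := ih h2
    have h : DfT V (fun v => nset {i | el (Hs s m (fstZ (t v))) i ∨
      (i.unpair.1 = m + 1 ∧ sndZ (t v) ∈ ap s (num i.unpair.2))}) := inferInstance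
    exact h

instance DfT.instHs [hT : TZ V] [hR : RV V] {s : ZFSet.{0}} [hs : InE V s]
    {t : (Fin n → ZFSet.{0}) → ZFSet.{0}} [ht : DfT V t] {m : ℕ} :
    DfT V (fun v => Hs s m (t v)) := dft_Hs hs.mem m ht

end Pool.LCM
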