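import Pool.Agent.Lib.MP_1c8600_m.Basic

/-!
# MP_1c8600_lc, model side, row M1: codes of analytic sets are closed under unions and intersections
-/

set_option autoImplicit false
set_option linter.unusedVariables false
set_option linter.style.haveILetI false

open Set

namespace Pool.LCM

open Pool.MP_3ade05_lc Pool.PC Pool.MP_1c8600_lc
open Pool.UT hiding pw

variable {V : Set ZFSet.{0}} {n : ℕ}

/-- The section number `n` of the real `T`. -/
noncomputable def sec (T : ZFSet.{0}) (n : ℕ) : ZFSet.{0} := nset {p | el T (Nat.pair n p)}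

@[simp] lemma el_sec {T : ZFSet.{0}} {n p : ℕ} : el (sec T n) p ↔ el T (Nat.pair n p) := by
  unfold sec
  rw [el_nset]
  rfl

instance DfT.instSec [hT : TZ V] [hR : RV V] {s : (Fin n → ZFSet.{0}) → ZFSet.{0}}
    {t : (Fin n → ZFSet.{0}) → ℕ} [hs : DfT V s] [ht : DfN V t] :
    DfT V (fun v => sec (s v) (t v)) := by
  have hs1 := hs.up
  have ht1 := ht.up
  have h : DfT V (fun v => nset {p | el (s v) (Nat.pair (t v) p)}) := inferInstance
  exact h

/-- The code with the root label `b` whose subtree number `n` is the code `sec T n`. -/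
noncomputable def mrg (b : ℕ) (T : ZFSet.{0}) : ZFSet.{0} :=
  nset {p | p = Nat.pair 0 b ∨ ∃ n s l : ℕ, p = Nat.pair (Nat.pair n s + 1) l ∧
    el T (Nat.pair n (Nat.pair s l))}

lemma el_mrg_zero {b : ℕ} {T : ZFSet.{0}} {l : ℕ} : el (mrg b T) (Nat.pair 0 l) ↔ l = b := by
  unfold mrg
  rw [el_nset]
  constructor
  · rintro (h | ⟨n, s, l', h, _⟩)
    · exact (Nat.pair_eq_pair.1 h).2
    · exact absurd (Nat.pair_eq_pair.1 h).1 (Nat.succ_ne_zero _).symm
  · rintro rfl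
    exact Or.inl rfl

lemma el_mrg_succ {b : ℕ} {T : ZFSet.{0}} {n s l : ℕ} :
    el (mrg b T) (Nat.pair (Nat.pair n s + 1) l) ↔ el (sec T n) (Nat.pair s l) := by
  unfold mrg
  rw [el_nset, el_sec]
  constructor
  · rintro (h | ⟨n', s', l', h, h'⟩)
    · exact absurd (Nat.pair_eq_pair.1 h).1 (Nat.succ_ne_zero _)
    · obtain ⟨h1, rfl⟩ := Nat.pair_eq_pair.1 h
      obtain ⟨rfl, rfl⟩ := Nat.pair_eq_pair.1 (Nat.succ_injective h1)
      exact h'
  · intro h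
    exact Or.inr ⟨n, s, l, rfl, h⟩

lemma mrg_memV [hT : TZ V] [hR : RV V] (b : ℕ) {T : ZFSet.{0}} (hT' : T ∈ V) : mrg b T ∈ V := by
  haveI : InE V T := ⟨hT'⟩
  exact mem_of (E := V) (nset {p | p = Nat.pair 0 b ∨ ∃ n s l : ℕ,
    p = Nat.pair (Nat.pair n s + 1) l ∧ el T (Nat.pair n (Nat.pair s l))})

/-- Row M1: choice of a sequence of reals in the model. -/
theorem choose_real [hT : TC V] [hR : RV V] (R : ZFSet.{0} → ZFSet.{0} → Prop)
    [hRd : Df V (fun v : Fin 2 → ZFSet.{0} => R (v 0) (v 1))]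
    (h : ∀ n : ℕ, ∃ g ∈ V, g ⊆ ZFSet.omega ∧ R (num n) g) :
    ∃ T ∈ V, T ⊆ ZFSet.omega ∧ ∀ n, R (num n) (sec T n) := by
  obtain ⟨f, hf, hff, hfa⟩ := Pool.UT.choose_fun (E := V) R omega_memV (pw_mem omega_memV)
    (fun x hx => by
      obtain ⟨n, rfl⟩ := mem_omega_iff.1 hx
      obtain ⟨g, hg, hgo, hgR⟩ := h n
      exact ⟨g, mem_pw.2 ⟨hg, hgo⟩, hgR⟩)
  haveI : InE V f := ⟨hf⟩
  refine ⟨nset {p | el (ap f (num p.unpair.1)) p.unpair.2},
    nset_memV (fun p => el (ap f (num p.unpair.1)) p.unpair.2), ?_, fun n => ?_⟩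
  · intro x hx
    obtain ⟨k, _, rfl⟩ := mem_nset.1 hx
    exact num_mem_omega k
  · have h1 := hfa (num n) (num_mem_omega n)
    have h2 : sec (nset {p | el (ap f (num p.unpair.1)) p.unpair.2}) n = ap f (num n) := by
      conv_rhs => rw [← nset_el (mem_pw.1 h1.1).2]
      unfold sec
      congr 1
      ext p
      simp
    rw [h2]
    exact h1.2

/-- Row M1: `Wit` depends only on the elements. -/
lemma wit_congr {t t' ρ ρ' g g' : ZFSet.{0}} (h1 : ∀ n, el t n ↔ el t' n)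
    (h2 : ∀ n, el ρ n ↔ el ρ' n) (h3 : ∀ n, el g n ↔ el g' n) : Wit t ρ g ↔ Wit t' ρ' g' := by
  unfold Wit
  simp only [h1, h2, h3]

/-- Row M1. -/
lemma tru_congr {t t' ρ ρ' : ZFSet.{0}} (h1 : ∀ n, el t n ↔ el t' n)
    (h2 : ∀ n, el ρ n ↔ el ρ' n) : Tru V t ρ ↔ Tru V t' ρ' := by
  unfold Tru
  exact exists_congr fun g => and_congr_right fun _ => wit_congr h1 h2 fun _ => Iff.rfl

/-- Row M1: the code of a literal. -/
lemma tru_l1 [hT : TZ V] [hR : RV V] (i : ℕ) (ρ : ZFSet.{0}) :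
    Tru V (nset {Nat.pair 0 (L1 i)}) ρ ↔ el ρ i := by
  constructor
  · rintro ⟨g, hg, h0, h⟩
    exact (h 0 h0 (L1 i) (el_nset.2 rfl)).2.2.1 i rfl
  · intro h
    refine ⟨nset {k | k = 0}, nset_memV (fun k => k = 0), el_nset.2 rfl, fun s hs l hl => ?_⟩
    have hl' : Nat.pair s l ∈ ({Nat.pair 0 (L1 i)} : Set ℕ) := el_nset.1 hl
    rw [Set.mem_singleton_iff] at hl'
    obtain ⟨rfl, rfl⟩ := Nat.pair_eq_pair.1 hl'
    unfold L1 L0
    refine ⟨fun h => by omega, fun h => by omega, fun j hj => ?_, fun j hj => by omega⟩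
    obtain rfl : i = j := by omega
    exact h

/-- Row M1: the code of a negative literal. -/
lemma tru_l0 [hT : TZ V] [hR : RV V] (i : ℕ) (ρ : ZFSet.{0}) :
    Tru V (nset {Nat.pair 0 (L0 i)}) ρ ↔ ¬ el ρ i := by
  constructor
  · rintro ⟨g, hg, h0, h⟩
    exact (h 0 h0 (L0 i) (el_nset.2 rfl)).2.2.2 i rfl
  · intro h
    refine ⟨nset {k | k = 0}, nset_memV (fun k => k = 0), el_nset.2 rfl, fun s hs l hl => ?_⟩
    have hl' : Nat.pair s l ∈ ({Nat.pair 0 (L0 i)} : Set ℕ) := el_nset.1 hl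
    rw [Set.mem_singleton_iff] at hl'
    obtain ⟨rfl, rfl⟩ := Nat.pair_eq_pair.1 hl'
    unfold L1 L0
    refine ⟨fun h => by omega, fun h => by omega, fun j hj => by omega, fun j hj => ?_⟩
    obtain rfl : i = j := by omega
    exact h

lemma M1_el (P : ℕ → Prop) (s : ℕ) : el (nset {k | P k}) s ↔ P s := el_nset

/-- The closure condition of `Wit`, for a set of nodes given by a predicate. -/
def M1Cl (t ρ : ZFSet.{0}) (g : ℕ → Prop) : Prop :=
  ∀ s, g s → ∀ l, el t (Nat.pair s l) →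
    (l = 0 → ∀ s', Child s s' → g s') ∧ (l = 1 → ∃ s', Child s s' ∧ g s') ∧
      (∀ i, l = L1 i → el ρ i) ∧ (∀ i, l = L0 i → ¬ el ρ i)

lemma M1_down {b n : ℕ} {T ρ : ZFSet.{0}} {G : ℕ → Prop} (h : M1Cl (mrg b T) ρ G) :
    M1Cl (sec T n) ρ (fun s => G (Nat.pair n s + 1)) := by
  intro s hs l hl
  obtain ⟨h1, h2, h3, h4⟩ := h (Nat.pair n s + 1) hs l (el_mrg_succ.2 hl)
  refine ⟨fun hl0 s' hs' => h1 hl0 _ (child_cons.2 ⟨s', rfl, hs'⟩), fun hl1 => ?_, h3, h4⟩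
  obtain ⟨q, hq, hGq⟩ := h2 hl1
  obtain ⟨s', rfl, hs'⟩ := child_cons.1 hq
  exact ⟨s', hs', hGq⟩

lemma M1_up {b : ℕ} {T ρ : ZFSet.{0}} {G : ℕ → Prop}
    (h : ∀ n, M1Cl (sec T n) ρ (fun s => G (Nat.pair n s + 1)))
    (h0 : (b = 0 → ∀ n, G (Nat.pair n 0 + 1)) ∧ (b = 1 → ∃ n, G (Nat.pair n 0 + 1)) ∧ b < 2) :
    M1Cl (mrg b T) ρ G := by
  intro s hs l hl
  rcases Nat.eq_zero_or_pos s with rfl | hpos
  · obtain rfl : l = b := el_mrg_zero.1 hl
    refine ⟨fun hl0 s' hs' => ?_, fun hl1 => ?_, fun i hi => ?_, fun i hi => ?_⟩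
    · obtain ⟨n, rfl⟩ := child_zero.1 hs'
      exact h0.1 hl0 n
    · obtain ⟨n, hn⟩ := h0.2.1 hl1
      exact ⟨_, child_zero.2 ⟨n, rfl⟩, hn⟩
    · have := h0.2.2
      unfold L1 at hi
      omega
    · have := h0.2.2
      unfold L0 at hi
      omega
  · obtain ⟨n, s0, rfl⟩ : ∃ n s0, s = Nat.pair n s0 + 1 := by
      refine ⟨(s - 1).unpair.1, (s - 1).unpair.2, ?_⟩
      rw [Nat.pair_unpair]
      omega
    obtain ⟨h1, h2, h3, h4⟩ := h n s0 hs l (el_mrg_succ.1 hl)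
    refine ⟨fun hl0 q hq => ?_, fun hl1 => ?_, h3, h4⟩
    · obtain ⟨s', rfl, hs'⟩ := child_cons.1 hq
      exact h1 hl0 s' hs'
    · obtain ⟨s', hs', hG⟩ := h2 hl1
      exact ⟨_, child_cons.2 ⟨s', rfl, hs'⟩, hG⟩

lemma M1_congr {t ρ : ZFSet.{0}} {G G' : ℕ → Prop} (h : M1Cl t ρ G) (hG : ∀ s, G s ↔ G' s) :
    M1Cl t ρ G' := by
  have : G = G' := funext fun s => propext (hG s)
  rwa [← this]

lemma M1_wit {t ρ : ZFSet.{0}} (P : ℕ → Prop) (h0 : P 0) (h : M1Cl t ρ P) :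
    Wit t ρ (nset {k | P k}) :=
  ⟨(M1_el P 0).2 h0, M1_congr h fun s => (M1_el P s).symm⟩

/-- Row M1: unions. -/
theorem tru_or [hT : TC V] [hR : RV V] {T ρ : ZFSet.{0}} (hT' : T ∈ V) :
    Tru V (mrg 1 T) ρ ↔ ∃ n, Tru V (sec T n) ρ := by
  constructor
  · rintro ⟨g', hg', h0, h⟩
    obtain ⟨s', hs', hgs'⟩ := (h 0 h0 1 (el_mrg_zero.2 rfl)).2.1 rfl
    obtain ⟨n, rfl⟩ := child_zero.1 hs'
    haveI : InE V g' := ⟨hg'⟩
    exact ⟨n, nset {s | el g' (Nat.pair n s + 1)},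
      nset_memV (fun s => el g' (Nat.pair n s + 1)), M1_wit _ hgs' (M1_down (n := n) (G := el g') h)⟩
  · rintro ⟨n, g, hg, h0, h⟩
    haveI : InE V g := ⟨hg⟩
    have key : ∀ m s, (Nat.pair m s + 1 = 0 ∨ ∃ s', Nat.pair m s + 1 = Nat.pair n s' + 1 ∧
        el g s') ↔ m = n ∧ el g s := by
      intro m s
      constructor
      · rintro (h1 | ⟨s', h1, h2⟩)
        · exact absurd h1 (Nat.succ_ne_zero _)
        · obtain ⟨rfl, rfl⟩ := Nat.pair_eq_pair.1 (Nat.succ_injective h1)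
          exact ⟨rfl, h2⟩
      · rintro ⟨rfl, h1⟩
        exact Or.inr ⟨s, rfl, h1⟩
    refine ⟨nset {k | k = 0 ∨ ∃ s, k = Nat.pair n s + 1 ∧ el g s},
      nset_memV (fun k => k = 0 ∨ ∃ s, k = Nat.pair n s + 1 ∧ el g s),
      M1_wit (fun k => k = 0 ∨ ∃ s, k = Nat.pair n s + 1 ∧ el g s) (Or.inl rfl) ?_⟩
    have h1 : M1Cl (mrg 1 T) ρ (fun k => k = 0 ∨ ∃ s, k = Nat.pair n s + 1 ∧ el g s) := by
      refine M1_up (fun m => ?_) ⟨fun h => absurd h one_ne_zero, fun _ => ⟨n, ?_⟩, by norm_num⟩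
      · by_cases hm : m = n
        · subst hm
          refine M1_congr (G := el g) h fun s => ?_
          rw [key]
          simp
        · refine fun s hs => absurd ((key m s).1 hs).1 hm
      · rw [key]
        exact ⟨rfl, h0⟩
    exact h1

/-- Row M1: intersections (with `choose_real`). -/
theorem tru_and [hT : TC V] [hR : RV V] {T ρ : ZFSet.{0}} (hT' : T ∈ V) (hρ : ρ ∈ V) :
    Tru V (mrg 0 T) ρ ↔ ∀ n, Tru V (sec T n) ρ := by
  haveI : InE V T := ⟨hT'⟩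
  haveI : InE V ρ := ⟨hρ⟩
  constructor
  · rintro ⟨g', hg', h0, h⟩ n
    haveI : InE V g' := ⟨hg'⟩
    exact ⟨nset {s | el g' (Nat.pair n s + 1)},
      nset_memV (fun s => el g' (Nat.pair n s + 1)),
      M1_wit _ ((h 0 h0 0 (el_mrg_zero.2 rfl)).1 rfl _ (child_zero.2 ⟨n, rfl⟩))
        (M1_down (n := n) (G := el g') h)⟩
  · intro h
    obtain ⟨G, hG, _, hGw⟩ := choose_real (V := V) (fun x g => Wit (sec T (nat x)) ρ g) (fun n => by
      obtain ⟨g, hg, hw⟩ := h n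
      haveI : InE V g := ⟨hg⟩
      refine ⟨nset {k | el g k}, nset_memV (fun k => el g k), ?_, ?_⟩
      · intro x hx
        obtain ⟨k, _, rfl⟩ := mem_nset.1 hx
        exact num_mem_omega k
      · show Wit (sec T (nat (num n))) ρ (nset {k | el g k})
        rw [nat_num]
        exact (wit_congr (fun _ => Iff.rfl) (fun _ => Iff.rfl) fun k => el_nset).2 hw)
    haveI : InE V G := ⟨hG⟩
    have hGw' : ∀ n, Wit (sec T n) ρ (sec G n) := by
      intro n
      have := hGw n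
      simpa only [nat_num] using this
    have key : ∀ m s, (Nat.pair m s + 1 = 0 ∨ ∃ n s', Nat.pair m s + 1 = Nat.pair n s' + 1 ∧
        el G (Nat.pair n s')) ↔ el (sec G m) s := by
      intro m s
      rw [el_sec]
      constructor
      · rintro (h1 | ⟨n, s', h1, h2⟩)
        · exact absurd h1 (Nat.succ_ne_zero _)
        · obtain ⟨rfl, rfl⟩ := Nat.pair_eq_pair.1 (Nat.succ_injective h1)
          exact h2
      · intro h1
        exact Or.inr ⟨m, s, rfl, h1⟩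
    refine ⟨nset {k | k = 0 ∨ ∃ n s, k = Nat.pair n s + 1 ∧ el G (Nat.pair n s)},
      nset_memV (fun k => k = 0 ∨ ∃ n s, k = Nat.pair n s + 1 ∧ el G (Nat.pair n s)),
      M1_wit (fun k => k = 0 ∨ ∃ n s, k = Nat.pair n s + 1 ∧ el G (Nat.pair n s)) (Or.inl rfl) ?_⟩
    have h1 : M1Cl (mrg 0 T) ρ (fun k => k = 0 ∨ ∃ n s, k = Nat.pair n s + 1 ∧
        el G (Nat.pair n s)) := by
      refine M1_up (fun m => ?_) ⟨fun _ m => ?_, fun h => absurd h zero_ne_one, by norm_num⟩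
      · exact M1_congr (G := el (sec G m)) (hGw' m).2 fun s => (key m s).symm
      · rw [key]
        exact (hGw' m).1
    exact h1

end Pool.LCM
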