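import Pool.Agent.Lib.MP_1c8600_m.Bo

/-!
# MP_1c8600_lc, model side, row M4: the map from `E` onto the reals
-/

set_option autoImplicit false
set_option linter.unusedVariables false
set_option linter.style.haveILetI false

open Set

namespace Pool.LCM

open Pool.MP_3ade05_lc Pool.PC Pool.MP_1c8600_lc
open Pool.UT hiding pw

variable {V : Set ZFSet.{0}} {E : ZFSet.{0}} {A : ℕ → ZFSet.{0}} {m n : ℕ}

/-- The decoding map of the code `c`; `s` is the sequence of the sets `A n`. -/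
noncomputable def FF (c s x : ZFSet.{0}) : ZFSet.{0} :=
  nset {j | ∃ k a w : ℕ, el c (Nat.pair k (Nat.pair a w)) ∧ Stt w j ∧ ∃ q : ℕ, Stl q k ∧ Nin a q ∧
    ∀ i : ℕ, (Stt q i → x ∈ ap s (num i)) ∧ (Stf q i → x ∉ ap s (num i))}

instance DfT.instFF [hT : TZ V] [hR : RV V] {c s : ZFSet.{0}} [hc : InE V c] [hs : InE V s]
    {t : (Fin n → ZFSet.{0}) → ZFSet.{0}} [ht : DfT V t] : DfT V (fun v => FF c s (t v)) := by
  refine DfT.mk1 (F := fun x => FF c s x) ?_ ?_ ht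
  · intro x hx
    haveI : InE V x := ⟨hx⟩
    exact mem_of (E := V) (nset {j | ∃ k a w : ℕ, el c (Nat.pair k (Nat.pair a w)) ∧ Stt w j ∧
      ∃ q : ℕ, Stl q k ∧ Nin a q ∧
      ∀ i : ℕ, (Stt q i → x ∈ ap s (num i)) ∧ (Stf q i → x ∉ ap s (num i))})
  · have h : DfT V (fun v : Fin 1 → ZFSet.{0} => nset {j | ∃ k a w : ℕ,
      el c (Nat.pair k (Nat.pair a w)) ∧ Stt w j ∧ ∃ q : ℕ, Stl q k ∧ Nin a q ∧
      ∀ i : ℕ, (Stt q i → v 0 ∈ ap s (num i)) ∧ (Stf q i → v 0 ∉ ap s (num i))}) := inferInstance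
    exact h.graph

/-- A string with the right entries is an initial segment. -/
private lemma M4_str {y : ℕ → Bool} {t : List Bool}
    (h : ∀ i : ℕ, (t[i]? = some true → y i = true) ∧ (t[i]? = some false → y i = false)) :
    t = Pool.LV.pre y t.length := by
  apply List.ext_getElem
  · simp
  · intro i h1 h2
    rw [Pool.LV.getElem_pre]
    have h3 : t[i]? = some t[i] := List.getElem?_eq_getElem h1
    cases hb : t[i] with
    | true =>
      rw [hb] at h3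
      exact ((h i).1 h3).symm
    | false =>
      rw [hb] at h3
      exact ((h i).2 h3).symm

private lemma M4_get {y : ℕ → Bool} {k i : ℕ} {b : Bool} (h : (Pool.LV.pre y k)[i]? = some b) :
    y i = b := by
  obtain ⟨h1, h2⟩ := List.getElem?_eq_some_iff.1 h
  rw [Pool.LV.getElem_pre] at h2
  exact h2

/-- Row M4: the decoding map finds `z` if `GR c (h x) z` holds. -/
theorem FF_eq {b s x : ZFSet.{0}} {c z : ℕ → Bool}
    (hb : ∀ n, (ZFSet.pair (num n) x ∈ b ↔ x ∈ ap s (num n)))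
    (h : Pool.LV.GR c (hxZ b x) z) (n : ℕ) : el (FF (nset {n | c n = true}) s x) n ↔ z n = true := by
  have hx : ∀ i, hxZ b x i = true ↔ x ∈ ap s (num i) := by
    intro i
    classical
    rw [← hb i]
    simp [hxZ]
  have hx' : ∀ i, hxZ b x i = false ↔ x ∉ ap s (num i) := by
    intro i
    rw [← hx]
    simp
  obtain ⟨g1, g2⟩ := h
  unfold FF
  rw [el_nset]
  constructor
  · rintro ⟨k, a, w, hc, ⟨w', rfl, hw⟩, q, ⟨t, rfl, ht⟩, ⟨S, t', rfl, he, hS⟩, hq⟩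
    obtain rfl : t = t' := Encodable.encode_injective he
    rw [el_nset] at hc
    have h1 : t = Pool.LV.pre (hxZ b x) t.length := by
      apply M4_str
      intro i
      exact ⟨fun h2 => (hx i).2 ((hq i).1 ⟨t, rfl, h2⟩),
        fun h2 => (hx' i).2 ((hq i).2 ⟨t, rfl, h2⟩)⟩
    rw [ht] at h1
    rw [h1] at hS
    have h3 := g1 k S w' hc hS
    rw [h3] at hw
    exact M4_get hw
  · intro hz
    obtain ⟨m, S, w, h1, h2, h3⟩ := g2 (n + 1)
    have h4 := g1 m S w h1 h2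
    refine ⟨m, Encodable.encode S, Encodable.encode w, ?_, ⟨w, rfl, ?_⟩,
      Encodable.encode (Pool.LV.pre (hxZ b x) m), ⟨_, rfl, by simp⟩, ⟨S, _, rfl, rfl, h2⟩, ?_⟩
    · rw [el_nset]
      exact h1
    · rw [h4, List.getElem?_eq_getElem (by simp; omega), Pool.LV.getElem_pre, hz]
    · intro i
      constructor
      · rintro ⟨t, he, h5⟩
        obtain rfl := Encodable.encode_injective he
        exact (hx i).1 (M4_get h5)
      · rintro ⟨t, he, h5⟩
        obtain rfl := Encodable.encode_injective he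
        exact (hx' i).1 (M4_get h5)

/-- Row M4: the decoding map applied to a coordinate is Borel. -/
theorem BoR.ff (hE : E ∈ V) [hT : TZ V] [hR : RV V] (hA : SeqIn V A) (hA' : ∀ n, A n ⊆ E)
    (hU : ∀ x ∈ E, ∃ n, x ∈ A n) {s : ZFSet.{0}} (hs : s ∈ V) (hsA : ∀ n, ap s (num n) = A n)
    {c : ZFSet.{0}} (hc : c ∈ V) {i : ℕ} (hi : i ≤ m) :
    BoR V E A m (fun z => FF c s (cO i m z)) := by
  haveI : InE V c := ⟨hc⟩
  haveI : InE V s := ⟨hs⟩
  unfold BoR
  refine Bo.congr (P := fun (v : Fin 1 → ZFSet.{0}) z => ∃ k : ℕ, ∃ a : ℕ, ∃ w : ℕ,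
    el c (Nat.pair k (Nat.pair a w)) ∧ Stt w (nat (v 0)) ∧ ∃ q : ℕ, Stl q k ∧ Nin a q ∧
      ∀ j : ℕ, (Stt q j → cO i m z ∈ ap s (num j)) ∧ (Stf q j → ¬ cO i m z ∈ ap s (num j)))
    ?_ ?_
  · refine Bo.ex hE (P := fun k (v : Fin 1 → ZFSet.{0}) z => ∃ a : ℕ, ∃ w : ℕ,
      el c (Nat.pair k (Nat.pair a w)) ∧ Stt w (nat (v 0)) ∧ ∃ q : ℕ, Stl q k ∧ Nin a q ∧
        ∀ j : ℕ, (Stt q j → cO i m z ∈ ap s (num j)) ∧
          (Stf q j → ¬ cO i m z ∈ ap s (num j))) ?_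
    refine Bo.ex hE (P := fun a (v : Fin 2 → ZFSet.{0}) z => ∃ w : ℕ,
      el c (Nat.pair (nat (v 0)) (Nat.pair a w)) ∧ Stt w (nat (v 1)) ∧
        ∃ q : ℕ, Stl q (nat (v 0)) ∧ Nin a q ∧
        ∀ j : ℕ, (Stt q j → cO i m z ∈ ap s (num j)) ∧
          (Stf q j → ¬ cO i m z ∈ ap s (num j))) ?_
    refine Bo.ex hE (P := fun w (v : Fin 3 → ZFSet.{0}) z =>
      el c (Nat.pair (nat (v 1)) (Nat.pair (nat (v 0)) w)) ∧ Stt w (nat (v 2)) ∧
        ∃ q : ℕ, Stl q (nat (v 1)) ∧ Nin (nat (v 0)) q ∧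
        ∀ j : ℕ, (Stt q j → cO i m z ∈ ap s (num j)) ∧
          (Stf q j → ¬ cO i m z ∈ ap s (num j))) ?_
    refine Bo.and hE hA hA' (P := fun (v : Fin 4 → ZFSet.{0}) _ =>
      el c (Nat.pair (nat (v 2)) (Nat.pair (nat (v 1)) (nat (v 0)))))
      (Bo.par hE hA hA' inferInstance) ?_
    refine Bo.and hE hA hA' (P := fun (v : Fin 4 → ZFSet.{0}) _ => Stt (nat (v 0)) (nat (v 3)))
      (Bo.par hE hA hA' inferInstance) ?_
    refine Bo.ex hE (P := fun q (v : Fin 4 → ZFSet.{0}) z =>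
      Stl q (nat (v 2)) ∧ Nin (nat (v 1)) q ∧
        ∀ j : ℕ, (Stt q j → cO i m z ∈ ap s (num j)) ∧
          (Stf q j → ¬ cO i m z ∈ ap s (num j))) ?_
    refine Bo.and hE hA hA' (P := fun (v : Fin 5 → ZFSet.{0}) _ => Stl (nat (v 0)) (nat (v 3)))
      (Bo.par hE hA hA' inferInstance) ?_
    refine Bo.and hE hA hA' (P := fun (v : Fin 5 → ZFSet.{0}) _ => Nin (nat (v 2)) (nat (v 0)))
      (Bo.par hE hA hA' inferInstance) ?_
    refine Bo.all hE (P := fun j (v : Fin 5 → ZFSet.{0}) z =>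
      (Stt (nat (v 0)) j → cO i m z ∈ ap s (num j)) ∧
        (Stf (nat (v 0)) j → ¬ cO i m z ∈ ap s (num j))) ?_
    have hat : Bo V E A m (fun (v : Fin 6 → ZFSet.{0}) z => cO i m z ∈ ap s (num (nat (v 0)))) :=
      Bo.atom hE hA hA' hU hs hsA hi (t := fun v => nat (v 0)) inferInstance
    refine Bo.and hE hA hA' ?_ ?_
    · exact Bo.imp hE hA hA' (P := fun (v : Fin 6 → ZFSet.{0}) _ => Stt (nat (v 1)) (nat (v 0)))
        (Bo.par hE hA hA' inferInstance) hat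
    · exact Bo.imp hE hA hA' (P := fun (v : Fin 6 → ZFSet.{0}) _ => Stf (nat (v 1)) (nat (v 0)))
        (Bo.par hE hA hA' inferInstance) hat.not
  · intro v z
    unfold FF
    rw [el_nset]
    exact Iff.rfl

end Pool.LCM
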