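import Pool.Agent.Lib.MP_1c8600_m.Code

/-!
# MP_1c8600_lc, model side, row M2: a class of coded sets which is a `σ`-algebra contains the
Borel sets
-/

set_option autoImplicit false
set_option linter.unusedVariables false
set_option linter.style.haveILetI false

open Set

namespace Pool.LCM

open Pool.MP_3ade05_lc Pool.PC Pool.MP_1c8600_lc
open Pool.UT hiding pw

variable {V : Set ZFSet.{0}}

/-- Row M2: `Φ t z`: the point `z` belongs to the set with the code `t`; `Good t`: `t` is a good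
code. If the sets with good codes form a `σ`-algebra (in the model) which contains the rectangles
then all Borel sets have good codes. Induction on `BorelV`; the codes of a sequence of sets are
chosen with `choose_real`, `R x t := Good t ∧ ∀ z ∈ Ep E m, (z ∈ ap s x ↔ Φ t z)`. -/
theorem borel_codes [hT : TC V] [hR : RV V] {E : ZFSet.{0}} (hE : E ∈ V) {A : ℕ → ZFSet.{0}}
    (hA : SeqIn V A) (hA' : ∀ n, A n ⊆ E) (m : ℕ) (Good : ZFSet.{0} → Prop)
    (Φ : ZFSet.{0} → ZFSet.{0} → Prop) [hG : Df V (fun v : Fin 1 → ZFSet.{0} => Good (v 0))]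
    [hΦ : Df V (fun v : Fin 2 → ZFSet.{0} => Φ (v 0) (v 1))]
    (hr : ∀ k : ℕ → ℕ, ∃ t ∈ V, t ⊆ ZFSet.omega ∧ Good t ∧
      ∀ z ∈ Ep E m, (z ∈ rectZ A m k ↔ Φ t z))
    (hc : ∀ t ∈ V, Good t → ∃ t' ∈ V, t' ⊆ ZFSet.omega ∧ Good t' ∧
      ∀ z ∈ Ep E m, (Φ t' z ↔ ¬ Φ t z))
    (hu : ∀ T ∈ V, (∀ n, Good (sec T n)) → ∃ t ∈ V, t ⊆ ZFSet.omega ∧ Good t ∧
      ∀ z ∈ Ep E m, (Φ t z ↔ ∃ n, Φ (sec T n) z))
    {S : ZFSet.{0}} (hS : BorelV V E A m S) :
    ∃ t ∈ V, t ⊆ ZFSet.omega ∧ Good t ∧ ∀ z ∈ Ep E m, (z ∈ S ↔ Φ t z) := by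
  induction hS with
  | rect k => exact hr k
  | compl S _ ih =>
    obtain ⟨t, ht, _, htg, htz⟩ := ih
    obtain ⟨t', ht', hts', htg', htz'⟩ := hc t ht htg
    refine ⟨t', ht', hts', htg', fun z hz => ?_⟩
    rw [htz' z hz, ← htz z hz, ZFSet.mem_sdiff]
    exact ⟨fun h => h.2, fun h => ⟨hz, h⟩⟩
  | union S hS hB ih =>
    obtain ⟨s, hs, hsf, hsa⟩ := seq_ap hS
    haveI : InE V s := ⟨hs⟩
    haveI : InE V (Ep E m) := ⟨Ep_memV hE m⟩
    haveI h1 : Df V (fun v : Fin 2 → ZFSet.{0} => Good (v 1)) :=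
      Df.comp1 hG inferInstance
    haveI h2 : Df V (fun v : Fin 3 → ZFSet.{0} => Φ (v 2) (v 0)) :=
      Df.comp2 hΦ inferInstance inferInstance
    haveI h3 : Df V (fun v : Fin 2 → ZFSet.{0} =>
        Good (v 1) ∧ ∀ z ∈ Ep E m, (z ∈ ap s (v 0) ↔ Φ (v 1) z)) := by
      haveI h4 : Df V (fun v : Fin 3 → ZFSet.{0} =>
        (v 0 ∈ ap s (v (Fin.succ 0)) ↔ Φ (v (Fin.succ 1)) (v 0))) := by
        haveI h5 : Df V (fun v : Fin 3 → ZFSet.{0} => Φ (v (Fin.succ 1)) (v 0)) := h2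
        infer_instance
      haveI h6 : Df V (fun v : Fin 2 → ZFSet.{0} =>
          ∀ z ∈ Ep E m, (z ∈ ap s (v 0) ↔ Φ (v 1) z)) :=
        Df.instBall (E := V) (t := fun _ : Fin 2 → ZFSet.{0} => Ep E m)
          (P := fun z v => (z ∈ ap s (v 0) ↔ Φ (v 1) z))
      exact Df.instAnd
    obtain ⟨T, hT', hTs, hTR⟩ := choose_real (V := V)
      (fun x t => Good t ∧ ∀ z ∈ Ep E m, (z ∈ ap s x ↔ Φ t z)) (fun n => by
        obtain ⟨t, ht, hts, htg, htz⟩ := ih n
        refine ⟨t, ht, hts, htg, fun z hz => ?_⟩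
        rw [hsa]
        exact htz z hz)
    obtain ⟨t, ht, hts, htg, htz⟩ := hu T hT' (fun n => (hTR n).1)
    refine ⟨t, ht, hts, htg, fun z hz => ?_⟩
    rw [htz z hz, mem_uni]
    refine exists_congr fun n => ?_
    rw [← (hTR n).2 z hz, hsa]

lemma nset_sub_M2b (B : Set ℕ) : nset B ⊆ ZFSet.omega := by
  intro x hx
  obtain ⟨n, _, rfl⟩ := mem_nset.1 hx
  exact num_mem_omega n

/-- a real with two given sections -/
lemma two_M2b [hT : TC V] [hR : RV V] {a b : ZFSet.{0}} (ha : a ∈ V) (hb : b ∈ V) :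
    ∃ t ∈ V, t ⊆ ZFSet.omega ∧ (∀ ρ, (Tru V (sec t 0) ρ ↔ Tru V a ρ)) ∧
      ∀ ρ, (Tru V (sec t 1) ρ ↔ Tru V b ρ) := by
  haveI : InE V a := ⟨ha⟩
  haveI : InE V b := ⟨hb⟩
  have h1 : nset {p | (p.unpair.1 = 0 ∧ el a p.unpair.2) ∨ (p.unpair.1 = 1 ∧ el b p.unpair.2)} ∈ V :=
    nset_memV (V := V)
      (fun p => (p.unpair.1 = 0 ∧ el a p.unpair.2) ∨ (p.unpair.1 = 1 ∧ el b p.unpair.2))
  refine ⟨_, h1, nset_sub_M2b _, fun ρ => tru_congr (fun n => ?_) fun _ => Iff.rfl,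
    fun ρ => tru_congr (fun n => ?_) fun _ => Iff.rfl⟩
  · rw [el_sec, el_nset]
    simp
  · rw [el_sec, el_nset]
    simp

/-- the sequence of the literals -/
lemma lit_seq_M2b [hT : TC V] [hR : RV V] (m : ℕ) (k : ℕ → ℕ) :
    ∃ fs ∈ V, ∀ n, ap fs (num n) = num (Nat.pair (min n m) (k (min n m))) := by
  have h1 : SeqIn V (fun n => num (Nat.pair (min n m) (k (min n m)))) := by
    refine seq_const (fun n => num_memV _) m fun n hn => ?_
    rw [Nat.min_eq_right hn, Nat.min_self]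
  obtain ⟨s, hs, _, h⟩ := seq_ap h1
  exact ⟨s, hs, h⟩

/-- Row M2: every Borel set has a code. `Φ t z := Tru V (sec t 0) (Hs s m z)`,
`Good t := ∀ z ∈ Ep E m, (Tru V (sec t 1) (Hs s m z) ↔ ¬ Tru V (sec t 0) (Hs s m z))`.
Rectangles: `mrg 0` and `mrg 1` applied to the eventually constant sequence of the literals
`(min j m, k (min j m))` (the graph of an eventually constant function is in the model,
`seq_const`); complements: exchange; unions: `mrg 1` of the sections `sec (sec T n) 0` and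
`mrg 0` of the sections `sec (sec T n) 1`. -/
theorem borel_code [hT : TC V] [hR : RV V] {E : ZFSet.{0}} (hE : E ∈ V) {A : ℕ → ZFSet.{0}}
    (hA : SeqIn V A) (hA' : ∀ n, A n ⊆ E) {s : ZFSet.{0}} (hs : s ∈ V)
    (hsA : ∀ n, ap s (num n) = A n) {m : ℕ} {S : ZFSet.{0}} (hS : BorelV V E A m S) :
    ∃ t ∈ V, t ⊆ ZFSet.omega ∧ ∀ z ∈ Ep E m, (z ∈ S ↔ Tru V t (Hs s m z)) := by
  haveI : InE V s := ⟨hs⟩
  haveI : InE V (Ep E m) := ⟨Ep_memV hE m⟩
  have hρ : ∀ z ∈ Ep E m, Hs s m z ∈ V := by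
    intro z hz
    haveI : InE V z := ⟨hT.trans _ (Ep_memV hE m) z hz⟩
    exact mem_of (E := V) (Hs s m z)
  have hG : Df V (fun v : Fin 1 → ZFSet.{0} => ∀ z ∈ Ep E m,
      (Tru V (sec (v 0) 1) (Hs s m z) ↔ ¬ Tru V (sec (v 0) 0) (Hs s m z))) := inferInstance
  have hΦ : Df V (fun v : Fin 2 → ZFSet.{0} => Tru V (sec (v 0) 0) (Hs s m (v 1))) :=
    inferInstance
  have key : ∃ t ∈ V, t ⊆ ZFSet.omega ∧ (∀ z ∈ Ep E m, (Tru V (sec t 1) (Hs s m z) ↔
      ¬ Tru V (sec t 0) (Hs s m z))) ∧ ∀ z ∈ Ep E m, (z ∈ S ↔ Tru V (sec t 0) (Hs s m z)) := ?_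
  · obtain ⟨t, ht, htω, hgt, hts⟩ := key
    haveI : InE V t := ⟨ht⟩
    exact ⟨sec t 0, mem_of (E := V) (sec t 0), nset_sub_M2b _, hts⟩
  refine borel_codes hE hA hA' m
    (fun t => ∀ z ∈ Ep E m, (Tru V (sec t 1) (Hs s m z) ↔ ¬ Tru V (sec t 0) (Hs s m z)))
    (fun t z => Tru V (sec t 0) (Hs s m z)) (hG := hG) (hΦ := hΦ) ?_ ?_ ?_ hS
  · -- rectangles
    intro k
    obtain ⟨fs, hfs, hfs2⟩ := lit_seq_M2b (V := V) m k
    haveI : InE V fs := ⟨hfs⟩
    have m1 : nset {p | p.unpair.2 = Nat.pair 0 (L1 (nat (ap fs (num p.unpair.1))))} ∈ V :=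
      nset_memV (V := V) (fun p => p.unpair.2 = Nat.pair 0 (L1 (nat (ap fs (num p.unpair.1)))))
    have m0 : nset {p | p.unpair.2 = Nat.pair 0 (L0 (nat (ap fs (num p.unpair.1))))} ∈ V :=
      nset_memV (V := V) (fun p => p.unpair.2 = Nat.pair 0 (L0 (nat (ap fs (num p.unpair.1)))))
    obtain ⟨t, ht, htω, h0, h1⟩ := two_M2b (V := V) (mrg_memV 0 m1) (mrg_memV 1 m0)
    have e1 : ∀ n q, el (sec (nset {p | p.unpair.2 =
        Nat.pair 0 (L1 (nat (ap fs (num p.unpair.1))))}) n) q ↔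
        el (nset {Nat.pair 0 (L1 (Nat.pair (min n m) (k (min n m))))}) q := by
      intro n q
      rw [el_sec, el_nset, el_nset]
      simp [hfs2]
    have e0 : ∀ n q, el (sec (nset {p | p.unpair.2 =
        Nat.pair 0 (L0 (nat (ap fs (num p.unpair.1))))}) n) q ↔
        el (nset {Nat.pair 0 (L0 (Nat.pair (min n m) (k (min n m))))}) q := by
      intro n q
      rw [el_sec, el_nset, el_nset]
      simp [hfs2]
    have k1 : ∀ z ∈ Ep E m, (Tru V (sec t 0) (Hs s m z) ↔ z ∈ rectZ A m k) := by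
      intro z hz
      rw [h0, tru_and m1 (hρ z hz), mem_rectZ hA' hz]
      have e2 : ∀ n, (Tru V (sec (nset {p | p.unpair.2 =
          Nat.pair 0 (L1 (nat (ap fs (num p.unpair.1))))}) n) (Hs s m z) ↔
          cO (min n m) m z ∈ A (k (min n m))) := by
        intro n
        rw [tru_congr (e1 n) (fun _ => Iff.rfl), tru_l1, el_Hs hsA hz]
        simp
      constructor
      · intro h i hi
        have h3 := (e2 i).1 (h i)
        rwa [Nat.min_eq_left hi] at h3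
      · intro h n
        exact (e2 n).2 (h _ (Nat.min_le_right _ _))
    have k0 : ∀ z ∈ Ep E m, (Tru V (sec t 1) (Hs s m z) ↔ ¬ z ∈ rectZ A m k) := by
      intro z hz
      rw [h1, tru_or m0, mem_rectZ hA' hz]
      have e2 : ∀ n, (Tru V (sec (nset {p | p.unpair.2 =
          Nat.pair 0 (L0 (nat (ap fs (num p.unpair.1))))}) n) (Hs s m z) ↔
          ¬ cO (min n m) m z ∈ A (k (min n m))) := by
        intro n
        rw [tru_congr (e0 n) (fun _ => Iff.rfl), tru_l0, el_Hs hsA hz]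
        simp
      push Not
      constructor
      · rintro ⟨n, h⟩
        exact ⟨min n m, Nat.min_le_right _ _, (e2 n).1 h⟩
      · rintro ⟨i, hi, h⟩
        refine ⟨i, (e2 i).2 ?_⟩
        rwa [Nat.min_eq_left hi]
    refine ⟨t, ht, htω, fun z hz => ?_, fun z hz => (k1 z hz).symm⟩
    rw [k0 z hz, k1 z hz]
  · -- complements
    intro t ht hg
    haveI : InE V t := ⟨ht⟩
    obtain ⟨t', ht', htω', h0, h1⟩ := two_M2b (V := V) (mem_of (E := V) (sec t 1))
      (mem_of (E := V) (sec t 0))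
    refine ⟨t', ht', htω', fun z hz => ?_, fun z hz => ?_⟩
    · rw [h0, h1, hg z hz, not_not]
    · rw [h0]
      exact hg z hz
  · -- unions
    intro T hT' hg
    haveI : InE V T := ⟨hT'⟩
    have m0 : nset {p | el T (Nat.pair p.unpair.1 (Nat.pair 0 p.unpair.2))} ∈ V :=
      nset_memV (V := V) (fun p => el T (Nat.pair p.unpair.1 (Nat.pair 0 p.unpair.2)))
    have m1 : nset {p | el T (Nat.pair p.unpair.1 (Nat.pair 1 p.unpair.2))} ∈ V :=
      nset_memV (V := V) (fun p => el T (Nat.pair p.unpair.1 (Nat.pair 1 p.unpair.2)))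
    obtain ⟨t, ht, htω, h0, h1⟩ := two_M2b (V := V) (mrg_memV 1 m0) (mrg_memV 0 m1)
    have e0 : ∀ n q, el (sec (nset {p | el T (Nat.pair p.unpair.1 (Nat.pair 0 p.unpair.2))}) n) q ↔
        el (sec (sec T n) 0) q := by
      intro n q
      rw [el_sec, el_nset, el_sec, el_sec]
      simp
    have e1 : ∀ n q, el (sec (nset {p | el T (Nat.pair p.unpair.1 (Nat.pair 1 p.unpair.2))}) n) q ↔
        el (sec (sec T n) 1) q := by
      intro n q
      rw [el_sec, el_nset, el_sec, el_sec]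
      simp
    have k0 : ∀ z ∈ Ep E m, (Tru V (sec t 0) (Hs s m z) ↔
        ∃ n, Tru V (sec (sec T n) 0) (Hs s m z)) := by
      intro z hz
      rw [h0, tru_or m0]
      exact exists_congr fun n => tru_congr (e0 n) (fun _ => Iff.rfl)
    have k1 : ∀ z ∈ Ep E m, (Tru V (sec t 1) (Hs s m z) ↔
        ∀ n, Tru V (sec (sec T n) 1) (Hs s m z)) := by
      intro z hz
      rw [h1, tru_and m1 (hρ z hz)]
      exact forall_congr' fun n => tru_congr (e1 n) (fun _ => Iff.rfl)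
    refine ⟨t, ht, htω, fun z hz => ?_, k0⟩
    rw [k0 z hz, k1 z hz]
    push Not
    exact forall_congr' fun n => hg n z hz

end Pool.LCM
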