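import Pool.Agent.Lib.MP_1c8600_m.Tool

/-!
# MP_1c8600_lc, model side: the coding relations, definable terms and relations on `ℕ`
-/

set_option autoImplicit false
set_option linter.unusedVariables false
set_option linter.style.haveILetI false

open Set

namespace Pool.LCM

open Pool.MP_3ade05_lc Pool.PC Pool.UT Pool.MP_1c8600_lc

/-- `b` is the code of a one-point extension of the finite sequence with code `a`; the empty
sequence has the code `0`, the sequence with the first entry `n` followed by the sequence with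
code `s` has the code `Nat.pair n s + 1`. -/
inductive Child : ℕ → ℕ → Prop
  | nil (n : ℕ) : Child 0 (Nat.pair n 0 + 1)
  | cons (n s s' : ℕ) (h : Child s s') : Child (Nat.pair n s + 1) (Nat.pair n s' + 1)

lemma child_zero {q : ℕ} : Child 0 q ↔ ∃ n, q = Nat.pair n 0 + 1 := by
  constructor
  · intro h
    cases h with
    | nil n => exact ⟨n, rfl⟩
  · rintro ⟨n, rfl⟩
    exact Child.nil n

lemma child_cons {n s q : ℕ} : Child (Nat.pair n s + 1) q ↔ ∃ s', q = Nat.pair n s' + 1 ∧
    Child s s' := by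
  constructor
  · intro h
    generalize hp : Nat.pair n s + 1 = p at h
    cases h with
    | nil m => exact absurd hp (Nat.succ_ne_zero _)
    | cons m a b h' =>
      obtain ⟨rfl, rfl⟩ := Nat.pair_eq_pair.1 (Nat.succ_injective hp)
      exact ⟨b, rfl, h'⟩
  · rintro ⟨s', rfl, h⟩
    exact Child.cons n s s' h

/-- The label the literal `i` is true. -/
def L1 (i : ℕ) : ℕ := 2 * i + 2

/-- The label the literal `i` is false. -/
def L0 (i : ℕ) : ℕ := 2 * i + 3

/-- The code of a string. -/
def IsStr (q : ℕ) : Prop := ∃ s : List Bool, q = Encodable.encode s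

/-- The entry number `i` of the string `q` is `true`. -/
def Stt (q i : ℕ) : Prop := ∃ s : List Bool, q = Encodable.encode s ∧ s[i]? = some true

/-- The entry number `i` of the string `q` is `false`. -/
def Stf (q i : ℕ) : Prop := ∃ s : List Bool, q = Encodable.encode s ∧ s[i]? = some false

/-- The string `q` has length `m`. -/
def Stl (q m : ℕ) : Prop := ∃ s : List Bool, q = Encodable.encode s ∧ s.length = m

/-- `a` is a code of a list of strings and the string `q` does not occur in this list. -/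
def Nin (a q : ℕ) : Prop := ∃ (S : List (List Bool)) (s : List Bool), a = Encodable.encode S ∧
  q = Encodable.encode s ∧ s ∉ S

/-- The names of the coding relations. -/
inductive RN
  | fst | snd | child | l1 | l0 | isStr | stt | stf | stl | nin

instance : Countable RN := by
  have h : Function.Injective (fun r : RN => match r with
    | .fst => 0 | .snd => 1 | .child => 2 | .l1 => 3 | .l0 => 4 | .isStr => 5 | .stt => 6
    | .stf => 7 | .stl => 8 | .nin => (9 : ℕ)) := by
    intro a b hab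
    cases a <;> cases b <;> first | rfl | (simp at hab)
  exact h.countable

/-- The coding relations. -/
def rel : RN → ℕ → ℕ → Prop
  | .fst => fun p a => a = p.unpair.1
  | .snd => fun p a => a = p.unpair.2
  | .child => Child
  | .l1 => fun i l => l = L1 i
  | .l0 => fun i l => l = L0 i
  | .isStr => fun q r => r = q ∧ IsStr q
  | .stt => Stt
  | .stf => Stf
  | .stl => Stl
  | .nin => Nin

/-- The coding relations are in the model. -/
class RV (V : Set ZFSet.{0}) : Prop where
  mem : ∀ r, relZ (rel r) ∈ V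

variable {V : Set ZFSet.{0}} {n : ℕ}

/-- Relations of the model between natural numbers. -/
lemma Df.rel [hT : TZ V] {r : ℕ → ℕ → Prop} (hr : relZ r ∈ V) {s t : (Fin n → ZFSet.{0}) → ℕ}
    (hs : DfN V s) (ht : DfN V t) : Df V (fun v => r (s v) (t v)) := by
  haveI : InE V (relZ r) := ⟨hr⟩
  have h : Df V (fun v => ZFSet.pair (num (s v)) (num (t v)) ∈ relZ r) := inferInstance
  exact h.congr fun v _ => pair_mem_relZ

/-- Functions of the model between natural numbers. -/
lemma DfN.fn [hT : TZ V] {f : ℕ → ℕ} (hf : relZ (fun a b => b = f a) ∈ V)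
    {t : (Fin n → ZFSet.{0}) → ℕ} (ht : DfN V t) : DfN V (fun v => f (t v)) := by
  haveI : InE V (relZ (fun a b => b = f a)) := ⟨hf⟩
  have h1 : DfT V (fun v => num (f (nat (num (t v))))) := by
    refine DfT.mk1 (F := fun x => num (f (nat x))) (fun x _ => num_memV _) ?_ ht.out
    have h : Df V (fun v : Fin 2 → ZFSet.{0} =>
      ∃ k : ℕ, v 0 = num k ∧ ZFSet.pair (num (nat (v 1))) (num k) ∈
        relZ (fun a b => b = f a)) := inferInstance
    refine h.congr fun v _ => ?_
    constructor
    · rintro ⟨k, hk, h2⟩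
      rw [pair_mem_relZ] at h2
      rw [hk, h2]
    · intro h2
      exact ⟨_, h2, pair_mem_relZ.2 rfl⟩
  refine ⟨?_⟩
  simpa only [nat_num] using h1

instance DfN.instFst [hT : TZ V] [hR : RV V] {t : (Fin n → ZFSet.{0}) → ℕ} [ht : DfN V t] :
    DfN V (fun v => (t v).unpair.1) := DfN.fn (f := fun p => p.unpair.1) (hR.mem .fst) ht

instance DfN.instSnd [hT : TZ V] [hR : RV V] {t : (Fin n → ZFSet.{0}) → ℕ} [ht : DfN V t] :
    DfN V (fun v => (t v).unpair.2) := DfN.fn (f := fun p => p.unpair.2) (hR.mem .snd) ht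

instance DfN.instL1 [hT : TZ V] [hR : RV V] {t : (Fin n → ZFSet.{0}) → ℕ} [ht : DfN V t] :
    DfN V (fun v => L1 (t v)) := DfN.fn (f := L1) (hR.mem .l1) ht

instance DfN.instL0 [hT : TZ V] [hR : RV V] {t : (Fin n → ZFSet.{0}) → ℕ} [ht : DfN V t] :
    DfN V (fun v => L0 (t v)) := DfN.fn (f := L0) (hR.mem .l0) ht

instance DfN.instSucc [hT : TZ V] {t : (Fin n → ZFSet.{0}) → ℕ} [ht : DfN V t] :
    DfN V (fun v => t v + 1) := by
  have h : DfT V (fun v => (insert (num (t v)) (num (t v)) : ZFSet.{0})) := inferInstance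
  exact ⟨h⟩

instance DfN.instPair [hT : TZ V] [hR : RV V] {s t : (Fin n → ZFSet.{0}) → ℕ} [hs : DfN V s]
    [ht : DfN V t] : DfN V (fun v => Nat.pair (s v) (t v)) := by
  refine ⟨fun v _ => num_memV _, ?_⟩
  have hs1 := hs.up
  have ht1 := ht.up
  have hs2 := hs1.up
  have ht2 := ht1.up
  have h : Df V (fun v : Fin (n + 1) → ZFSet.{0} => ∃ k : ℕ, v 0 = num k ∧
    k.unpair.1 = s (fun i => v i.succ) ∧ k.unpair.2 = t (fun i => v i.succ)) := inferInstance
  refine h.congr fun v _ => ?_
  constructor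
  · rintro ⟨k, h1, h2, h3⟩
    rw [h1, ← h2, ← h3, Nat.pair_unpair]
  · intro h1
    exact ⟨_, h1, by simp, by simp⟩

instance Df.instChild [hT : TZ V] [hR : RV V] {s t : (Fin n → ZFSet.{0}) → ℕ} [hs : DfN V s]
    [ht : DfN V t] : Df V (fun v => Child (s v) (t v)) := Df.rel (hR.mem .child) hs ht

instance Df.instStt [hT : TZ V] [hR : RV V] {s t : (Fin n → ZFSet.{0}) → ℕ} [hs : DfN V s]
    [ht : DfN V t] : Df V (fun v => Stt (s v) (t v)) := Df.rel (hR.mem .stt) hs ht

instance Df.instStf [hT : TZ V] [hR : RV V] {s t : (Fin n → ZFSet.{0}) → ℕ} [hs : DfN V s]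
    [ht : DfN V t] : Df V (fun v => Stf (s v) (t v)) := Df.rel (hR.mem .stf) hs ht

instance Df.instStl [hT : TZ V] [hR : RV V] {s t : (Fin n → ZFSet.{0}) → ℕ} [hs : DfN V s]
    [ht : DfN V t] : Df V (fun v => Stl (s v) (t v)) := Df.rel (hR.mem .stl) hs ht

instance Df.instNin [hT : TZ V] [hR : RV V] {s t : (Fin n → ZFSet.{0}) → ℕ} [hs : DfN V s]
    [ht : DfN V t] : Df V (fun v => Nin (s v) (t v)) := Df.rel (hR.mem .nin) hs ht

instance Df.instIsStr [hT : TZ V] [hR : RV V] {s : (Fin n → ZFSet.{0}) → ℕ} [hs : DfN V s] :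
    Df V (fun v => IsStr (s v)) := by
  have h : Df V (fun v => s v = s v ∧ IsStr (s v)) := Df.rel (hR.mem .isStr) hs hs
  exact h.congr fun v _ => by simp

/-! ### Evaluation of codes of Borel sets -/

/-- `g` is a set of nodes witnessing that the code `t` is true of `ρ`. The labels of the node `s`
are the `l` with `Nat.pair s l ∈ t`: the label `0` asks for all children, `1` for some child,
`L1 i` and `L0 i` for a literal. -/
def Wit (t ρ g : ZFSet.{0}) : Prop :=
  el g 0 ∧ ∀ s, el g s → ∀ l, el t (Nat.pair s l) →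
    (l = 0 → ∀ s', Child s s' → el g s') ∧ (l = 1 → ∃ s', Child s s' ∧ el g s') ∧
      (∀ i, l = L1 i → el ρ i) ∧ (∀ i, l = L0 i → ¬ el ρ i)

/-- The code `t` is true of `ρ`. -/
def Tru (V : Set ZFSet.{0}) (t ρ : ZFSet.{0}) : Prop := ∃ g ∈ V, Wit t ρ g

instance Df.instWit [hT : TZ V] [hR : RV V] {t r g : (Fin n → ZFSet.{0}) → ZFSet.{0}}
    [ht : DfT V t] [hr : DfT V r] [hg : DfT V g] : Df V (fun v => Wit (t v) (r v) (g v)) := by
  refine Df.comp3 (P := fun x y z => Wit x y z) ?_ ht hr hg
  have h : Df V (fun v : Fin 3 → ZFSet.{0} => el (v 2) 0 ∧ ∀ s : ℕ, el (v 2) s → ∀ l : ℕ,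
    el (v 0) (Nat.pair s l) → (l = 0 → ∀ s' : ℕ, Child s s' → el (v 2) s') ∧
      (l = 1 → ∃ s' : ℕ, Child s s' ∧ el (v 2) s') ∧
      (∀ i : ℕ, l = L1 i → el (v 1) i) ∧ (∀ i : ℕ, l = L0 i → ¬ el (v 1) i)) := inferInstance
  exact h

instance Df.instTru [hT : TZ V] [hR : RV V] {t r : (Fin n → ZFSet.{0}) → ZFSet.{0}}
    [ht : DfT V t] [hr : DfT V r] : Df V (fun v => Tru V (t v) (r v)) := by
  refine Df.comp2 (P := fun x y => Tru V x y) ?_ ht hr
  have h : Df V (fun v : Fin 2 → ZFSet.{0} => ∃ g ∈ V, Wit (v 0) (v 1) g) := inferInstance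
  exact h

end Pool.LCM
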