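import Pool.Agent.Lib.MP_9fc97b_ut.Cho
import Pool.Agent.Lib.MP_1c8600_lc.HS

/-!
# MP_1c8600_lc, model side: natural numbers and reals inside a transitive model

`nat x` is the natural number coded by the set `x`, `el x n` says that `num n ∈ x`.
`DfN V t`: the term `t` with values in `ℕ` is definable.
Quantifiers over `ℕ` are quantifiers over `ω`: instances `Df.instAllN`, `Df.instExN`.
-/

set_option autoImplicit false
set_option linter.unusedVariables false
set_option linter.style.haveILetI false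

open Set

namespace Pool.LCM

open Pool.MP_3ade05_lc Pool.PC Pool.UT Pool.MP_1c8600_lc

/-! ### Numerals -/

lemma num_mem_omega (n : ℕ) : num n ∈ ZFSet.omega := by
  induction n with
  | zero => exact ZFSet.omega_zero
  | succ n ih => exact ZFSet.omega_succ ih

lemma mem_omega_iff {x : ZFSet.{0}} : x ∈ ZFSet.omega ↔ ∃ n, x = num n := by
  have key : ∀ n, num n = ZFSet.mk (PSet.ofNat n) := by
    intro n
    induction n with
    | zero => rfl
    | succ n ih =>
      show insert (num n) (num n) = _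
      rw [ih]
      rfl
  constructor
  · refine Quotient.inductionOn x fun y => ?_
    rintro ⟨⟨n⟩, hn⟩
    exact ⟨n, (ZFSet.sound hn).trans (key n).symm⟩
  · rintro ⟨n, rfl⟩
    exact num_mem_omega n

lemma mem_num {n : ℕ} {x : ZFSet.{0}} : x ∈ num n ↔ ∃ k < n, x = num k := by
  induction n with
  | zero =>
    show x ∈ (∅ : ZFSet.{0}) ↔ _
    simp
  | succ n ih =>
    show x ∈ insert (num n) (num n) ↔ _
    rw [ZFSet.mem_insert_iff, ih]
    constructor
    · rintro (rfl | ⟨k, hk, rfl⟩)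
      · exact ⟨n, Nat.lt_succ_self n, rfl⟩
      · exact ⟨k, hk.trans (Nat.lt_succ_self n), rfl⟩
    · rintro ⟨k, hk, rfl⟩
      rcases Nat.lt_succ_iff_lt_or_eq.1 hk with h | rfl
      · exact Or.inr ⟨k, h, rfl⟩
      · exact Or.inl rfl

lemma num_inj {m n : ℕ} : num m = num n ↔ m = n := by
  constructor
  · intro h
    by_contra hne
    rcases lt_or_gt_of_ne hne with h1 | h1
    · have h2 : num m ∈ num n := mem_num.2 ⟨m, h1, rfl⟩
      rw [← h] at h2
      exact ZFSet.mem_irrefl _ h2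
    · have h2 : num n ∈ num m := mem_num.2 ⟨n, h1, rfl⟩
      rw [h] at h2
      exact ZFSet.mem_irrefl _ h2
  · rintro rfl
    rfl

open Classical in
/-- The natural number coded by a set. -/
noncomputable def nat (x : ZFSet.{0}) : ℕ := if h : ∃ n, x = num n then h.choose else 0

@[simp] lemma nat_num (n : ℕ) : nat (num n) = n := by
  have h : ∃ k, num n = num k := ⟨n, rfl⟩
  unfold nat
  rw [dif_pos h]
  exact (num_inj.1 h.choose_spec).symm

lemma nat_of_not {x : ZFSet.{0}} (h : x ∉ ZFSet.omega) : nat x = 0 := by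
  unfold nat
  rw [dif_neg]
  exact fun h1 => h (mem_omega_iff.2 h1)

lemma num_nat {x : ZFSet.{0}} (h : x ∈ ZFSet.omega) : num (nat x) = x := by
  obtain ⟨n, rfl⟩ := mem_omega_iff.1 h
  rw [nat_num]

/-- `n` is an element of the real `x`. -/
def el (x : ZFSet.{0}) (n : ℕ) : Prop := num n ∈ x

lemma mem_nset {A : Set ℕ} {x : ZFSet.{0}} : x ∈ nset A ↔ ∃ n ∈ A, x = num n := by
  unfold nset
  rw [ZFSet.mem_sep]
  constructor
  · exact fun h => h.2
  · rintro ⟨n, hn, rfl⟩
    exact ⟨num_mem_omega n, n, hn, rfl⟩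

@[simp] lemma el_nset {A : Set ℕ} {n : ℕ} : el (nset A) n ↔ n ∈ A := by
  unfold el
  rw [mem_nset]
  constructor
  · rintro ⟨m, hm, he⟩
    rw [num_inj.1 he]
    exact hm
  · exact fun h => ⟨n, h, rfl⟩

lemma nset_el {x : ZFSet.{0}} (h : x ⊆ ZFSet.omega) : nset {n | el x n} = x := by
  ext y
  rw [mem_nset]
  constructor
  · rintro ⟨n, hn, rfl⟩
    exact hn
  · intro hy
    obtain ⟨n, rfl⟩ := mem_omega_iff.1 (h hy)
    exact ⟨n, hy, rfl⟩

lemma pair_mem_relZ {r : ℕ → ℕ → Prop} {a b : ℕ} :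
    ZFSet.pair (num a) (num b) ∈ relZ r ↔ r a b := by
  unfold relZ
  rw [ZFSet.mem_range]
  constructor
  · rintro ⟨⟨⟨a', b'⟩, h⟩, he⟩
    obtain ⟨h1, h2⟩ := ZFSet.pair_injective he
    rw [← num_inj.1 h1, ← num_inj.1 h2]
    exact h
  · intro h
    exact ⟨⟨(a, b), h⟩, rfl⟩

/-! ### The model -/

variable {V : Set ZFSet.{0}} {n : ℕ}

/-- From the axioms to the class `TC`. -/
lemma tc_of (ht : ∀ x ∈ V, ∀ y ∈ x, y ∈ V) (hV : ZFCModel V) : TC V where
  trans := ht
  zf := hV.toZFModel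
  choice := hV.choice

lemma empty_memV [hT : TZ V] : (∅ : ZFSet.{0}) ∈ V := by
  obtain ⟨x, hx⟩ := hT.zf.nonempty
  have h3 := sep (E := V) (fun _ => False) hx
  rwa [show ZFSet.sep (fun _ => False) x = ∅ by ext z; simp] at h3

instance inE_empty [hT : TZ V] : InE V (∅ : ZFSet.{0}) := ⟨empty_memV⟩

lemma num_memV [hT : TZ V] (n : ℕ) : num n ∈ V := by
  induction n with
  | zero => exact empty_memV
  | succ n ih => exact insert_mem ih ih

instance inE_num [hT : TZ V] (n : ℕ) : InE V (num n) := ⟨num_memV n⟩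

lemma omega_memV [hT : TZ V] : ZFSet.omega ∈ V := by
  obtain ⟨x, hx, ⟨e, he, hex, h0⟩, hs⟩ := hT.zf.infinity
  have he0 : e = ∅ := by
    ext z
    constructor
    · intro hz
      exact absurd hz (h0 z (hT.trans e he z hz))
    · intro hz
      exact absurd hz (ZFSet.notMem_empty z)
  have hnx : ∀ n, num n ∈ x := by
    intro n
    induction n with
    | zero =>
      show (∅ : ZFSet.{0}) ∈ x
      rw [← he0]
      exact hex
    | succ n ih =>
      obtain ⟨z, hz, hzx, h⟩ := hs _ (num_memV n) ih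
      have : z = insert (num n) (num n) := by
        ext w
        rw [ZFSet.mem_insert_iff]
        constructor
        · intro hw
          exact ((h w (hT.trans z hz w hw)).1 hw).symm
        · intro hw
          have hwV : w ∈ V := by
            rcases hw with rfl | hw
            · exact num_memV n
            · exact hT.trans _ (num_memV n) w hw
          exact (h w hwV).2 hw.symm
      rw [this] at hzx
      exact hzx
  -- the intersection of all inductive subsets of `x`
  haveI : InE V x := ⟨hx⟩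
  set w : ZFSet.{0} := ZFSet.sep (fun z => ∀ y ∈ pw V x, (∅ ∈ y ∧ ∀ u ∈ y, insert u u ∈ y) →
    z ∈ y) x with hw
  have hwV : w ∈ V := by
    have h1 : Df V (fun v : Fin 1 → ZFSet.{0} => ∀ y ∈ pw V x,
      (∅ ∈ y ∧ ∀ u ∈ y, insert u u ∈ y) → v 0 ∈ y) := inferInstance
    exact sep (E := V) (fun z => ∀ y ∈ pw V x, (∅ ∈ y ∧ ∀ u ∈ y, insert u u ∈ y) → z ∈ y) hx
  have hnw : ∀ n, num n ∈ w := by
    intro n
    rw [hw, ZFSet.mem_sep]
    refine ⟨hnx n, fun y _ hy => ?_⟩
    induction n with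
    | zero => exact hy.1
    | succ n ih => exact hy.2 _ ih
  have hsub : ∀ z ∈ w, z ∈ ZFSet.omega := by
    by_contra hcon
    push Not at hcon
    -- the set of elements of `w` which are finite ordinals in the sense of a definable formula
    obtain ⟨z, hz, hzo⟩ := hcon
    set P : ZFSet.{0} → Prop := fun z => z.IsTransitive ∧ (∀ y ∈ z, y.IsTransitive) ∧
      (z = ∅ ∨ ∃ y ∈ z, z = insert y y) ∧ ∀ u ∈ z, u = ∅ ∨ ∃ y ∈ u, u = insert y y with hP
    have hPdf : Df V (fun v : Fin 1 → ZFSet.{0} => P (v 0)) := by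
      have h1 : Df V (fun v : Fin 1 → ZFSet.{0} => (∀ y ∈ v 0, y ⊆ v 0) ∧
        (∀ y ∈ v 0, ∀ u ∈ y, u ⊆ y) ∧
        (v 0 = ∅ ∨ ∃ y ∈ v 0, v 0 = insert y y) ∧ ∀ u ∈ v 0, u = ∅ ∨ ∃ y ∈ u, u = insert y y) :=
        inferInstance
      exact h1
    have hPnum : ∀ z, P z → z ∈ ZFSet.omega := by
      intro z
      induction z using ZFSet.inductionOn with
      | h z ih =>
        rintro ⟨h1, h2, h3, h4⟩
        rcases h3 with rfl | ⟨y, hy, hzy⟩
        · exact ZFSet.omega_zero
        · rw [hzy]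
          refine ZFSet.omega_succ (ih y hy ⟨h2 y hy, fun u hu => h2 u (h1 y hy hu), h4 y hy,
            fun u hu => h4 u (h1 y hy hu)⟩)
    have hPs : P ∅ := by
      refine ⟨?_, ?_, Or.inl rfl, ?_⟩
      · intro y hy
        exact absurd hy (ZFSet.notMem_empty y)
      · intro y hy
        exact absurd hy (ZFSet.notMem_empty y)
      · intro y hy
        exact absurd hy (ZFSet.notMem_empty y)
    have hPsucc : ∀ u, P u → P (insert u u) := by
      rintro u ⟨h1, h2, h3, h4⟩
      refine ⟨?_, ?_, Or.inr ⟨u, ZFSet.mem_insert u u, rfl⟩, ?_⟩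
      · intro y hy z hz
        rcases ZFSet.mem_insert_iff.1 hy with rfl | hy
        · exact ZFSet.mem_insert_iff.2 (Or.inr hz)
        · exact ZFSet.mem_insert_iff.2 (Or.inr (h1 y hy hz))
      · intro y hy
        rcases ZFSet.mem_insert_iff.1 hy with rfl | hy
        · exact h1
        · exact h2 y hy
      · intro y hy
        rcases ZFSet.mem_insert_iff.1 hy with rfl | hy
        · exact h3
        · exact h4 y hy
    have hyV : ZFSet.sep P x ∈ V := sep (E := V) P hx
    have h5 := (ZFSet.mem_sep.1 hz).2 (ZFSet.sep P x) (mem_pw.2 ⟨hyV, fun u hu =>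
      (ZFSet.mem_sep.1 hu).1⟩) ⟨ZFSet.mem_sep.2 ⟨hnx 0, hPs⟩, fun u hu => by
        obtain ⟨hu1, hu2⟩ := ZFSet.mem_sep.1 hu
        obtain ⟨n, rfl⟩ := mem_omega_iff.1 (hPnum u hu2)
        exact ZFSet.mem_sep.2 ⟨hnx (n + 1), hPsucc _ hu2⟩⟩
    exact hzo (hPnum z (ZFSet.mem_sep.1 h5).2)
  have : ZFSet.omega = w := by
    ext z
    constructor
    · intro hz
      obtain ⟨n, rfl⟩ := mem_omega_iff.1 hz
      exact hnw n
    · exact hsub z
  rw [this]
  exact hwV

instance inE_omega [hT : TZ V] : InE V ZFSet.omega := ⟨omega_memV⟩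

/-! ### Definable terms with values in `ℕ` -/

/-- The term `t` with values in `ℕ` is definable. -/
class DfN (V : Set ZFSet.{0}) {n : ℕ} (t : (Fin n → ZFSet.{0}) → ℕ) : Prop where
  out : DfT V (fun v => num (t v))

instance DfT.instNum {t : (Fin n → ZFSet.{0}) → ℕ} [h : DfN V t] : DfT V (fun v => num (t v)) :=
  h.out

instance DfN.instConst [hT : TZ V] {k : ℕ} : DfN V (fun _ : Fin n → ZFSet.{0} => k) :=
  ⟨inferInstance⟩

instance DfN.instNat [hT : TZ V] {s : (Fin n → ZFSet.{0}) → ZFSet.{0}} [hs : DfT V s] :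
    DfN V (fun v => nat (s v)) := by
  refine ⟨DfT.mk1 (F := fun x => num (nat x)) (fun x _ => num_memV _) ?_ hs⟩
  have h : Df V (fun v : Fin 2 → ZFSet.{0} => (v 1 ∈ ZFSet.omega → v 0 = v 1) ∧
    (v 1 ∉ ZFSet.omega → v 0 = num 0)) := inferInstance
  refine h.congr fun v _ => ?_
  by_cases h1 : v 1 ∈ ZFSet.omega
  · rw [num_nat h1]
    simp [h1]
  · rw [nat_of_not h1]
    simp [h1]

lemma DfN.up {t : (Fin n → ZFSet.{0}) → ℕ} (ht : DfN V t) :
    DfN V (fun v : Fin (n + 1) → ZFSet.{0} => t (fun i => v i.succ)) := ⟨ht.out.up⟩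

instance Df.instEqN [hT : TZ V] {s t : (Fin n → ZFSet.{0}) → ℕ} [hs : DfN V s] [ht : DfN V t] :
    Df V (fun v => s v = t v) := by
  have h : Df V (fun v => num (s v) = num (t v)) := inferInstance
  exact h.congr fun v _ => num_inj

instance Df.instLtN [hT : TZ V] {s t : (Fin n → ZFSet.{0}) → ℕ} [hs : DfN V s] [ht : DfN V t] :
    Df V (fun v => s v < t v) := by
  have h : Df V (fun v => num (s v) ∈ num (t v)) := inferInstance
  refine h.congr fun v _ => ?_
  rw [mem_num]
  constructor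
  · rintro ⟨k, hk, he⟩
    rw [num_inj.1 he]
    exact hk
  · exact fun h => ⟨_, h, rfl⟩

instance Df.instEl [hT : TZ V] {s : (Fin n → ZFSet.{0}) → ZFSet.{0}}
    {t : (Fin n → ZFSet.{0}) → ℕ} [hs : DfT V s] [ht : DfN V t] :
    Df V (fun v => el (s v) (t v)) := by
  have h : Df V (fun v => num (t v) ∈ s v) := inferInstance
  exact h

instance Df.instAllN [hT : TZ V] {P : ℕ → (Fin n → ZFSet.{0}) → Prop}
    [hP : Df V (fun v : Fin (n + 1) → ZFSet.{0} => P (nat (v 0)) (fun i => v i.succ))] :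
    Df V (fun v => ∀ k : ℕ, P k v) := by
  refine (Df.instBall (E := V) (t := fun _ : Fin n → ZFSet.{0} => ZFSet.omega)
    (P := fun x v => P (nat x) v)).congr fun v _ => ?_
  constructor
  · intro h k
    have := h (num k) (num_mem_omega k)
    rwa [nat_num] at this
  · intro h x _
    exact h _

instance Df.instExN [hT : TZ V] {P : ℕ → (Fin n → ZFSet.{0}) → Prop}
    [hP : Df V (fun v : Fin (n + 1) → ZFSet.{0} => P (nat (v 0)) (fun i => v i.succ))] :
    Df V (fun v => ∃ k : ℕ, P k v) := by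
  refine (Df.instBex (E := V) (t := fun _ : Fin n → ZFSet.{0} => ZFSet.omega)
    (P := fun x v => P (nat x) v)).congr fun v _ => ?_
  constructor
  · rintro ⟨x, _, h⟩
    exact ⟨_, h⟩
  · rintro ⟨k, hk⟩
    refine ⟨num k, num_mem_omega k, ?_⟩
    rwa [nat_num]

instance DfT.instNset [hT : TZ V] {P : ℕ → (Fin n → ZFSet.{0}) → Prop}
    [hP : Df V (fun v : Fin (n + 1) → ZFSet.{0} => P (nat (v 0)) (fun i => v i.succ))] :
    DfT V (fun v => nset {k | P k v}) := by
  have h : DfT V (fun v => ZFSet.sep (fun x => P (nat x) v) ZFSet.omega) :=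
    DfT.instSep (P := fun x v => P (nat x) v) (t := fun _ : Fin n → ZFSet.{0} => ZFSet.omega)
  have h1 : (fun v : Fin n → ZFSet.{0} => nset {k | P k v}) =
      (fun v => ZFSet.sep (fun x => P (nat x) v) ZFSet.omega) := by
    funext v
    ext x
    rw [mem_nset, ZFSet.mem_sep, mem_omega_iff]
    constructor
    · rintro ⟨k, hk, rfl⟩
      refine ⟨⟨k, rfl⟩, ?_⟩
      rw [nat_num]
      exact hk
    · rintro ⟨⟨k, rfl⟩, hk⟩
      rw [nat_num] at hk
      exact ⟨k, hk, rfl⟩
  rw [h1]
  exact h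

/-- A definable set of natural numbers is in the model. -/
lemma nset_memV [hT : TZ V] (P : ℕ → Prop)
    [hP : Df V (fun v : Fin 1 → ZFSet.{0} => P (nat (v 0)))] : nset {k | P k} ∈ V := by
  haveI : Df V (fun v : Fin (0 + 1) → ZFSet.{0} => P (nat (v 0))) := hP
  exact mem_of (E := V) (nset {k | P k})
    (h := DfT.instNset (n := 0) (P := fun k (_ : Fin 0 → ZFSet.{0}) => P k))

end Pool.LCM
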